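import Pool.Agent.R247.LC.Marc
set_option autoImplicit false

/-!
# From weak type bounds on a class of sets to strong type bounds on the functions
# whose superlevel sets belong to the class

Abstract form (an integral operator with a unimodular kernel) of the argument of the starting
files `Pool.Agent.TH297.QC.Strong`, `Main`, `Final`.
-/

namespace Pool.Agent.R247.LC

open MeasureTheory Set Filter Topology Complex
open scoped ENNReal

variable {X Z : Type*} [MeasurableSpace X] [MeasurableSpace Z]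

/-- the operator with kernel `k` -/
noncomputable def T (k : Z → X → ℂ) (μ : Measure X) (f : X → ℂ) (z : Z) : ℂ := ∫ x, k z x * f x ∂μ

/-- the indicator function -/
noncomputable def indc (A : Set X) (x : X) : ℂ := A.indicator (fun _ => (1 : ℂ)) x

/-- the standing assumptions on the kernel -/
structure Ker (k : Z → X → ℂ) : Prop where
  meas : StronglyMeasurable (Function.uncurry k)
  norm : ∀ z x, ‖k z x‖ = 1

variable {k : Z → X → ℂ} {μ : Measure X} {ν : Measure Z}

theorem Ker.meas_right (hk : Ker k) (z : Z) : StronglyMeasurable (k z) :=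
  hk.meas.comp_measurable (measurable_const.prodMk measurable_id)

omit [MeasurableSpace Z] in
theorem T_congr {f g : X → ℂ} (h : f =ᵐ[μ] g) (z : Z) : T k μ f z = T k μ g z := by
  unfold T
  refine integral_congr_ae ?_
  filter_upwards [h] with ξ hξ
  rw [hξ]

theorem T_norm (hk : Ker k) (f : X → ℂ) (z : Z) : ‖T k μ f z‖ ≤ ∫ x, ‖f x‖ ∂μ := by
  unfold T
  refine (norm_integral_le_integral_norm _).trans (le_of_eq ?_)
  congr 1
  funext ξ
  rw [norm_mul, hk.norm, one_mul]

theorem T_integrand (hk : Ker k) {f : X → ℂ} (hf : Integrable f μ) (z : Z) :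
    Integrable (fun x => k z x * f x) μ := by
  refine hf.mono ((hk.meas_right z).aestronglyMeasurable.mul hf.1)
    (Eventually.of_forall fun ξ => ?_)
  rw [norm_mul, hk.norm, one_mul]

omit [MeasurableSpace Z] in
theorem T_smul (c : ℂ) (f : X → ℂ) (z : Z) :
    T k μ (fun ξ => c * f ξ) z = c * T k μ f z := by
  unfold T
  rw [← integral_const_mul]
  congr 1
  funext ξ
  ring

theorem T_add (hk : Ker k) {f g : X → ℂ} (hf : Integrable f μ) (hg : Integrable g μ) (z : Z) :
    T k μ (fun ξ => f ξ + g ξ) z = T k μ f z + T k μ g z := by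
  unfold T
  rw [← integral_add (T_integrand hk hf z) (T_integrand hk hg z)]
  congr 1
  funext ξ
  ring

theorem T_meas [SFinite μ] (hk : Ker k) {f : X → ℂ} (hf : AEStronglyMeasurable f μ) :
    StronglyMeasurable (T k μ f) := by
  have h1 : T k μ f = T k μ (hf.mk f) := by
    funext z
    exact T_congr hf.ae_eq_mk z
  rw [h1]
  have h : StronglyMeasurable (Function.uncurry fun (z : Z) (x : X) => k z x * hf.mk f x) :=
    hk.meas.mul (hf.stronglyMeasurable_mk.comp_measurable measurable_snd)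
  exact h.integral_prod_right

theorem indc_int {A : Set X} (hA : NullMeasurableSet A μ) (hfin : μ A ≠ ∞) :
    Integrable (indc A) μ := by
  have : indc A = A.indicator fun _ => (1 : ℂ) := rfl
  rw [this]
  exact (integrableOn_const hfin).integrable_indicator₀ hA

theorem sup_bound (hk : Ker k) {A : Set X} (hA : NullMeasurableSet A μ) (z : Z) :
    ‖T k μ (indc A) z‖ ≤ (μ A).toReal := by
  refine (T_norm hk _ z).trans (le_of_eq ?_)
  have : (fun ξ => ‖indc A ξ‖) = A.indicator fun _ => (1 : ℝ) := by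
    funext ξ
    unfold indc
    by_cases h : ξ ∈ A
    · simp [h]
    · simp [h]
  rw [this, integral_indicator₀ hA]
  simp [Measure.real]

omit [MeasurableSpace Z] in
theorem T_ae_set {A B : Set X} (h : A =ᵐ[μ] B) (z : Z) :
    T k μ (indc A) z = T k μ (indc B) z := by
  refine T_congr ?_ z
  filter_upwards [h] with ξ hξ
  have h2 : ξ ∈ A ↔ ξ ∈ B := iff_of_eq hξ
  unfold indc
  by_cases hx : ξ ∈ A
  · rw [indicator_of_mem hx, indicator_of_mem (h2.1 hx)]
  · rw [indicator_of_notMem hx, indicator_of_notMem (fun h => hx (h2.2 h))]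

/-- strong type for sets -/
theorem strong_set [SFinite μ] (hk : Ker k) {qc Cw : ℝ} (hC : 0 ≤ Cw) {q : ℝ}
    (hqc : 1 < qc) (hq : qc < q) {A : Set X} (hA : NullMeasurableSet A μ) (hfin : μ A ≠ ∞)
    (hw : ∀ lam : ℝ, 0 < lam → ν {z | lam < ‖T k μ (indc A) z‖} ≤
      ENNReal.ofReal (Cw * lam ^ (-qc)) * μ A) :
    ∫⁻ z, ‖T k μ (indc A) z‖ₑ ^ q ∂ν
      ≤ ENNReal.ofReal (q * (Cw / (q - qc))) * μ A ^ (q - (qc - 1)) := by
  have hqc0 : 0 < qc := by linarith
  have hq0 : 0 < q := hqc0.trans hq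
  set V : ℝ := (μ A).toReal with hV
  have hV0 : 0 ≤ V := ENNReal.toReal_nonneg
  have hVe : μ A = ENNReal.ofReal V := (ENNReal.ofReal_toReal hfin).symm
  have hint : Integrable (indc A) μ := indc_int hA hfin
  have hmeas : Measurable fun z => ‖T k μ (indc A) z‖ := (T_meas hk hint.1).norm.measurable
  have e1 : ∀ z, ‖T k μ (indc A) z‖ₑ ^ q = ENNReal.ofReal (‖T k μ (indc A) z‖ ^ q) := by
    intro z
    rw [← ofReal_norm, ENNReal.ofReal_rpow_of_nonneg (norm_nonneg _) hq0.le]
  simp_rw [e1]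
  rw [lintegral_rpow_eq_lintegral_meas_lt_mul ν
    (Eventually.of_forall fun z => norm_nonneg _) hmeas.aemeasurable hq0]
  have hbd : ∀ t ∈ Ioi (0 : ℝ), ν {z | t < ‖T k μ (indc A) z‖} *
      ENNReal.ofReal (t ^ (q - 1)) ≤ (Ioc 0 V).indicator
        (fun t => ENNReal.ofReal Cw * μ A * ENNReal.ofReal (t ^ (-(1 + qc - q)))) t := by
    intro t ht
    have ht0 : (0 : ℝ) < t := ht
    by_cases htV : t ≤ V
    · rw [indicator_of_mem (show t ∈ Ioc 0 V from ⟨ht0, htV⟩)]
      refine (mul_le_mul_left (hw t ht0) _).trans (le_of_eq ?_)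
      rw [ENNReal.ofReal_mul hC, mul_assoc, mul_assoc, mul_comm (μ A), mul_assoc,
        mul_comm (μ A), ← mul_assoc (ENNReal.ofReal (t ^ (-qc))),
        ← ENNReal.ofReal_mul (by positivity), ← Real.rpow_add ht0]
      congr 4
      ring
    · rw [indicator_of_notMem (fun h => htV h.2)]
      have : {z | t < ‖T k μ (indc A) z‖} = ∅ := by
        ext z
        simp only [mem_ofPred_eq, mem_empty_iff_false, iff_false, not_lt]
        exact (sup_bound hk hA z).trans (not_le.1 htV).le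
      rw [this, measure_empty, zero_mul]
  refine (mul_le_mul_right (setLIntegral_mono' measurableSet_Ioi hbd) _).trans ?_
  have h2 : ∫⁻ t in Ioi (0 : ℝ), (Ioc 0 V).indicator
        (fun t => ENNReal.ofReal Cw * μ A * ENNReal.ofReal (t ^ (-(1 + qc - q)))) t
      ≤ ENNReal.ofReal Cw * μ A * ENNReal.ofReal (V ^ (q - qc) / (q - qc)) := by
    refine (setLIntegral_le_lintegral _ _).trans ?_
    rw [lintegral_indicator measurableSet_Ioc, lintegral_const_mul' _ _
      (ENNReal.mul_ne_top ENNReal.ofReal_ne_top hfin), lint_low (by linarith) hV0]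
    rw [show 1 - (1 + qc - q) = q - qc by ring]
  refine (mul_le_mul_right h2 _).trans (le_of_eq ?_)
  have hqq : 0 < q - qc := by linarith
  have hexp : q - (qc - 1) = q - qc + 1 := by ring
  have hV1 : 0 ≤ V ^ (q - qc) := by positivity
  rw [hVe, ENNReal.ofReal_rpow_of_nonneg hV0 (by rw [hexp]; linarith), hexp,
    Real.rpow_add_one' hV0 (by linarith), ← ENNReal.ofReal_mul hC,
    ← ENNReal.ofReal_mul (by positivity), ← ENNReal.ofReal_mul hq0.le,
    ← ENNReal.ofReal_mul (by positivity)]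
  congr 1
  ring

theorem u_meas [SFinite μ] (hk : Ker k) {g : X → ℝ} (hg : Measurable g) :
    Measurable (Function.uncurry fun (s : ℝ) (z : Z) => ‖T k μ (indc {ξ | s < g ξ}) z‖ₑ) := by
  have h : StronglyMeasurable (Function.uncurry fun (p : ℝ × Z) (ξ : X) =>
      k p.2 ξ * indc {ξ | p.1 < g ξ} ξ) := by
    refine StronglyMeasurable.mul ?_ ?_
    · exact hk.meas.comp_measurable ((measurable_snd.comp measurable_fst).prodMk measurable_snd)
    · have h1 : MeasurableSet {p : (ℝ × Z) × X | p.1.1 < g p.2} :=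
        measurableSet_lt (measurable_fst.comp measurable_fst) (hg.comp measurable_snd)
      have h2 : (fun x : (ℝ × Z) × X => indc {ξ | x.1.1 < g ξ} x.2)
          = {p : (ℝ × Z) × X | p.1.1 < g p.2}.indicator fun _ => (1 : ℂ) := by
        funext x
        unfold indc
        by_cases hx : x.1.1 < g x.2
        · rw [indicator_of_mem (show x.2 ∈ {ξ | x.1.1 < g ξ} from hx),
            indicator_of_mem (show x ∈ {p : (ℝ × Z) × X | p.1.1 < g p.2} from hx)]
        · rw [indicator_of_notMem (show x.2 ∉ {ξ | x.1.1 < g ξ} from hx),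
            indicator_of_notMem (show x ∉ {p : (ℝ × Z) × X | p.1.1 < g p.2} from hx)]
      exact (h2 ▸ (measurable_const.indicator h1).stronglyMeasurable :
        StronglyMeasurable fun x : (ℝ × Z) × X => indc {ξ | x.1.1 < g ξ} x.2)
  exact (h.integral_prod_right.measurable).enorm

theorem layer [SFinite μ] (hk : Ker k) {g : X → ℝ} (hg : Measurable g) (h0 : ∀ ξ, 0 ≤ g ξ)
    (hi : Integrable g μ) (z : Z) :
    ‖T k μ (fun ξ => (g ξ : ℂ)) z‖ₑ ≤ ∫⁻ s in Ioi 0, ‖T k μ (indc {ξ | s < g ξ}) z‖ₑ := by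
  set F : X → ℝ → ℂ := fun ξ s => k z ξ * indc {ξ | s < g ξ} ξ with hF
  have hFm : StronglyMeasurable (Function.uncurry F) := by
    refine StronglyMeasurable.mul ?_ ?_
    · exact (hk.meas_right z).comp_measurable measurable_fst
    · have h1 : MeasurableSet {p : X × ℝ | p.2 < g p.1} :=
        measurableSet_lt measurable_snd (hg.comp measurable_fst)
      have h2 : (fun x : X × ℝ => indc {ξ | x.2 < g ξ} x.1)
          = {p : X × ℝ | p.2 < g p.1}.indicator fun _ => (1 : ℂ) := by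
        funext x
        unfold indc
        by_cases hx : x.2 < g x.1
        · rw [indicator_of_mem (show x.1 ∈ {ξ | x.2 < g ξ} from hx),
            indicator_of_mem (show x ∈ {p : X × ℝ | p.2 < g p.1} from hx)]
        · rw [indicator_of_notMem (show x.1 ∉ {ξ | x.2 < g ξ} from hx),
            indicator_of_notMem (show x ∉ {p : X × ℝ | p.2 < g p.1} from hx)]
      exact (h2 ▸ (measurable_const.indicator h1).stronglyMeasurable :
        StronglyMeasurable fun x : X × ℝ => indc {ξ | x.2 < g ξ} x.1)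
  have hFn : ∀ ξ s, ‖F ξ s‖ₑ = (Iio (g ξ)).indicator (fun _ => (1 : ℝ≥0∞)) s := by
    intro ξ s
    rw [hF]
    simp only
    rw [enorm_mul, ← ofReal_norm, hk.norm, ENNReal.ofReal_one, one_mul]
    unfold indc
    by_cases hx : s < g ξ
    · rw [indicator_of_mem (show ξ ∈ {ξ | s < g ξ} from hx),
        indicator_of_mem (show s ∈ Iio (g ξ) from hx)]
      simp
    · rw [indicator_of_notMem (show ξ ∉ {ξ | s < g ξ} from hx),
        indicator_of_notMem (show s ∉ Iio (g ξ) from hx)]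
      simp
  have hin : ∀ ξ, ∫⁻ s in Ioi (0 : ℝ), ‖F ξ s‖ₑ = ENNReal.ofReal (g ξ) := by
    intro ξ
    simp_rw [hFn]
    rw [lintegral_indicator_const measurableSet_Iio, one_mul,
      Measure.restrict_apply measurableSet_Iio, inter_comm, Ioi_inter_Iio, Real.volume_Ioo,
      sub_zero]
  have hFi : Integrable (Function.uncurry F) (μ.prod (volume.restrict (Ioi (0 : ℝ)))) := by
    refine ⟨hFm.aestronglyMeasurable, ?_⟩
    rw [hasFiniteIntegral_iff_enorm, lintegral_prod _ hFm.enorm.aemeasurable]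
    simp only [Function.uncurry_apply_pair, hin]
    exact lt_of_le_of_lt (lintegral_mono fun ξ => by
      rw [← Real.enorm_of_nonneg (h0 ξ)]) hi.2
  have e1 : T k μ (fun ξ => (g ξ : ℂ)) z = ∫ ξ, ∫ s in Ioi (0 : ℝ), F ξ s ∂volume ∂μ := by
    unfold T
    congr 1
    funext ξ
    have h1 : ∫ s in Ioi (0 : ℝ), F ξ s = k z ξ * (g ξ : ℂ) := by
      have h2 : (fun s => F ξ s) = fun s => k z ξ * (Iio (g ξ)).indicator (fun _ => (1 : ℂ)) s := by
        funext s
        rw [hF]
        simp only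
        congr 1
      rw [h2, integral_const_mul, integral_indicator_const _ measurableSet_Iio,
        Measure.real, Measure.restrict_apply measurableSet_Iio, inter_comm, Ioi_inter_Iio,
        Real.volume_Ioo, sub_zero, ENNReal.toReal_ofReal (h0 ξ)]
      simp
    rw [h1]
  rw [e1, integral_integral_swap hFi]
  exact enorm_integral_le_lintegral_enorm _

/-- normalised form; the constant depends on `q` and `qc` only. -/
theorem main_norm {qc q : ℝ} (hqc : 1 < qc) (hq : qc < q) :
    ∃ C : ℝ≥0∞, C ≠ ∞ ∧ ∀ {X Z : Type*} [MeasurableSpace X] [MeasurableSpace Z]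
      {k : Z → X → ℂ} {μ : Measure X} {ν : Measure Z} [SFinite μ] [SFinite ν], Ker k →
      ∀ {Cw : ℝ}, 0 ≤ Cw →
      ∀ {W : Set (Set X)}, (∀ A ∈ W, NullMeasurableSet A μ → μ A ≠ ∞ → ∀ lam : ℝ, 0 < lam →
        ν {z | lam < ‖T k μ (indc A) z‖} ≤ ENNReal.ofReal (Cw * lam ^ (-qc)) * μ A) →
      ∀ f : X → ℝ, (∀ ξ, 0 ≤ f ξ) → Integrable f μ → (∀ s, 0 < s → {ξ | s < f ξ} ∈ W) →
      ∫⁻ ξ, ‖f ξ‖ₑ ^ (q / (q - (qc - 1))) ∂μ ≤ 1 →
      ∫⁻ z, ‖T k μ (fun ξ => (f ξ : ℂ)) z‖ₑ ^ q ∂ν ≤ C * ENNReal.ofReal Cw := by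
  set gam : ℝ := qc - 1 with hgam
  have hg0 : 0 < gam := by rw [hgam]; linarith
  have hqg : 0 < q - gam := by
    rw [hgam]; linarith
  set p : ℝ := q / (q - gam) with hp
  have hp1 : 1 ≤ p := by
    rw [hp, le_div_iff₀ hqg]
    linarith
  have hp0 : 0 < p := by linarith
  set q0 : ℝ := (qc + q) / 2 with hq0
  have hq0a : qc < q0 := by rw [hq0]; linarith
  have hq0b : q0 < q := by rw [hq0]; linarith
  have hq1 : q < 2 * q := by linarith
  obtain ⟨C, hC, H⟩ := interp (gam := gam) (q := q) (q0 := q0) (q1 := 2 * q) hg0 (by linarith)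
    (by rw [hgam]; linarith) hq0b hq1
  have hqq0 : 0 < q0 - qc := by linarith
  have hqq1 : 0 < 2 * q - qc := by linarith
  have hq0p : 0 < q0 := by linarith
  have hqp : 0 < q := by linarith
  refine ⟨C * (ENNReal.ofReal (q0 / (q0 - qc)) + ENNReal.ofReal (2 * q / (2 * q - qc))),
    ENNReal.mul_ne_top hC (ENNReal.add_ne_top.2 ⟨ENNReal.ofReal_ne_top, ENNReal.ofReal_ne_top⟩),
    ?_⟩
  intro X Z _ _ k μ ν _ _ hk Cw hCw W hW f hf0 hfi hfU hfp
  -- measurable version
  obtain ⟨g, hgm, hg0', hfg⟩ : ∃ g : X → ℝ, Measurable g ∧ (∀ ξ, 0 ≤ g ξ) ∧ f =ᵐ[μ] g := by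
    refine ⟨fun ξ => max (hfi.1.mk f ξ) 0, ?_, fun ξ => le_max_right _ _, ?_⟩
    · exact (hfi.1.stronglyMeasurable_mk.measurable).max measurable_const
    · filter_upwards [hfi.1.ae_eq_mk] with ξ hξ
      rw [← hξ, max_eq_left (hf0 ξ)]
  have hgi : Integrable g μ := hfi.congr hfg
  have hset : ∀ s, {ξ | s < g ξ} =ᵐ[μ] {ξ | s < f ξ} := by
    intro s
    filter_upwards [hfg] with ξ hξ
    apply propext
    change s < g ξ ↔ s < f ξ
    rw [hξ]
  have hnull : ∀ s, NullMeasurableSet {ξ | s < f ξ} μ := fun s =>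
    (measurableSet_lt measurable_const hgm).nullMeasurableSet.congr (hset s)
  have hgp : ∫⁻ ξ, ENNReal.ofReal (g ξ ^ p) ∂μ ≤ 1 := by
    refine le_trans (le_of_eq ?_) hfp
    refine lintegral_congr_ae ?_
    filter_upwards [hfg] with ξ hξ
    rw [← hξ, ← ENNReal.ofReal_rpow_of_nonneg (hf0 ξ) hp0.le, Real.enorm_of_nonneg (hf0 ξ)]
  have hv1 : ∀ s, 0 < s → ENNReal.ofReal (s ^ p) * μ {ξ | s < g ξ} ≤ 1 := by
    intro s hs
    have h1 := mul_meas_ge_le_lintegral (μ := μ)
      (f := fun ξ => ENNReal.ofReal (g ξ ^ p)) ((hgm.pow_const p).ennreal_ofReal)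
      (ENNReal.ofReal (s ^ p))
    refine (le_trans (mul_le_mul_right (measure_mono ?_) _) h1).trans hgp
    intro ξ hξ
    have h2 : s < g ξ := hξ
    exact ENNReal.ofReal_le_ofReal (Real.rpow_le_rpow hs.le h2.le hp0.le)
  have hfin : ∀ s, 0 < s → μ {ξ | s < g ξ} ≠ ∞ := by
    intro s hs htop
    have h1 := hv1 s hs
    rw [htop, ENNReal.mul_top] at h1
    · simp at h1
    · rw [Ne, ENNReal.ofReal_eq_zero, not_le]
      positivity
  have hv2 : ∫⁻ s in Ioi 0, ENNReal.ofReal (s ^ (p - 1)) * μ {ξ | s < g ξ} ≤ 1 := by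
    have h1 := lintegral_rpow_eq_lintegral_meas_lt_mul (μ := μ)
      (Eventually.of_forall hg0') hgm.aemeasurable hp0
    rw [h1] at hgp
    have h2 : (1 : ℝ≥0∞) ≤ ENNReal.ofReal p := by
      rw [← ENNReal.ofReal_one]
      exact ENNReal.ofReal_le_ofReal hp1
    refine le_trans ?_ hgp
    refine le_trans ?_ (le_mul_of_one_le_left zero_le h2)
    refine lintegral_mono fun s => ?_
    rw [mul_comm]
  have hstr : ∀ r : ℝ, qc < r → ∀ s, 0 < s →
      ∫⁻ z, ‖T k μ (indc {ξ | s < g ξ}) z‖ₑ ^ r ∂ν ≤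
        ENNReal.ofReal (r * (Cw / (r - qc))) * μ {ξ | s < g ξ} ^ (r - gam) := by
    intro r hr s hs
    simp_rw [T_ae_set (k := k) (hset s)]
    rw [measure_congr (hset s)]
    have hf' : μ {ξ | s < f ξ} ≠ ∞ := by rw [← measure_congr (hset s)]; exact hfin s hs
    exact strong_set hk hCw hqc hr (hnull s) hf' (hW _ (hfU s hs) (hnull s) hf')
  have hmain := H (Z := Z) (nu := ν)
    (u := fun s z => ‖T k μ (indc {ξ | s < g ξ}) z‖ₑ) (u_meas hk hgm)
    (v := fun s => μ {ξ | s < g ξ}) ENNReal.ofReal_ne_top ENNReal.ofReal_ne_top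
    (hstr q0 hq0a) (hstr (2 * q) (by linarith)) hv1 hv2
  have hfinal : C * (ENNReal.ofReal (q0 * (Cw / (q0 - qc))) +
      ENNReal.ofReal (2 * q * (Cw / (2 * q - qc)))) =
      C * (ENNReal.ofReal (q0 / (q0 - qc)) + ENNReal.ofReal (2 * q / (2 * q - qc))) *
        ENNReal.ofReal Cw := by
    have e0 : ENNReal.ofReal (q0 * (Cw / (q0 - qc))) =
        ENNReal.ofReal (q0 / (q0 - qc)) * ENNReal.ofReal Cw := by
      rw [← ENNReal.ofReal_mul (by positivity)]; congr 1; ring
    have e1 : ENNReal.ofReal (2 * q * (Cw / (2 * q - qc))) =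
        ENNReal.ofReal (2 * q / (2 * q - qc)) * ENNReal.ofReal Cw := by
      rw [← ENNReal.ofReal_mul (by positivity)]; congr 1; ring
    rw [e0, e1]
    ring
  rw [← hfinal]
  refine le_trans (lintegral_mono fun z => ?_) hmain
  have hc : T k μ (fun ξ => (f ξ : ℂ)) z = T k μ (fun ξ => (g ξ : ℂ)) z := by
    refine T_congr ?_ _
    filter_upwards [hfg] with ξ hξ
    rw [hξ]
  rw [hc]
  exact ENNReal.rpow_le_rpow (layer hk hgm hg0' hgi z) (by linarith)

end Pool.Agent.R247.LC
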