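import Pool.Agent.R247.LC.Gen
set_option autoImplicit false

/-!
# Strong type bounds, final generic forms
-/

namespace Pool.Agent.R247.LC

open MeasureTheory Set Filter Topology Complex
open scoped ENNReal

/-- nonnegative functions -/
theorem main_pos {qc q : ℝ} (hqc : 1 < qc) (hq : qc < q) :
    ∃ C : ℝ≥0∞, C ≠ ∞ ∧ ∀ {X Z : Type*} [MeasurableSpace X] [MeasurableSpace Z]
      {k : Z → X → ℂ} {μ : Measure X} {ν : Measure Z} [SFinite μ] [SFinite ν], Ker k →
      ∀ {Cw : ℝ}, 0 < Cw →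
      ∀ {W : Set (Set X)}, (∀ A ∈ W, NullMeasurableSet A μ → μ A ≠ ∞ → ∀ lam : ℝ, 0 < lam →
        ν {z | lam < ‖T k μ (indc A) z‖} ≤ ENNReal.ofReal (Cw * lam ^ (-qc)) * μ A) →
      ∀ f : X → ℝ, (∀ ξ, 0 ≤ f ξ) → Integrable f μ → (∀ s, 0 < s → {ξ | s < f ξ} ∈ W) →
      eLpNorm (T k μ (fun ξ => (f ξ : ℂ))) (ENNReal.ofReal q) ν ≤
        C * ENNReal.ofReal (Cw ^ (1 / q)) *
          eLpNorm f (ENNReal.ofReal (q / (q - (qc - 1)))) μ := by
  have hqg : 0 < q - (qc - 1) := by linarith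
  have hq0 : 0 < q := by linarith
  set p : ℝ := q / (q - (qc - 1)) with hp
  have hp0 : 0 < p := by positivity
  obtain ⟨C, hC, H⟩ := main_norm hqc hq
  refine ⟨C ^ (1 / q) + 1, ENNReal.add_ne_top.2
    ⟨ENNReal.rpow_ne_top_of_nonneg (by positivity) hC, ENNReal.one_ne_top⟩, ?_⟩
  intro X Z _ _ k μ ν _ _ hk Cw hCw W hW f hf0 hfi hfU
  have hpne : ENNReal.ofReal p ≠ 0 := by
    rw [Ne, ENNReal.ofReal_eq_zero, not_le]
    exact hp0
  have hqne : ENNReal.ofReal q ≠ 0 := by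
    rw [Ne, ENNReal.ofReal_eq_zero, not_le]
    exact hq0
  have hCw2 : ENNReal.ofReal (Cw ^ (1 / q)) ≠ 0 := by
    rw [Ne, ENNReal.ofReal_eq_zero, not_le]
    positivity
  set Np : ℝ≥0∞ := eLpNorm f (ENNReal.ofReal p) μ with hNp
  rcases eq_or_ne Np ∞ with htop | htop
  · rw [htop, ENNReal.mul_top (mul_ne_zero (by simp) hCw2)]
    exact le_top
  rcases eq_or_ne Np 0 with hz | hz
  · have h1 : f =ᵐ[μ] 0 := (eLpNorm_eq_zero_iff hfi.1 hpne).1 hz
    have h2 : T k μ (fun ξ => (f ξ : ℂ)) = fun _ => (0 : ℂ) := by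
      funext z
      have h3 : (fun ξ => (f ξ : ℂ)) =ᵐ[μ] fun _ => (0 : ℂ) := by
        filter_upwards [h1] with ξ hξ
        rw [hξ]
        simp
      rw [T_congr h3]
      unfold T
      simp
    rw [h2, hz, mul_zero]
    have h4 : (fun _ : Z => (0 : ℂ)) = 0 := rfl
    rw [h4, eLpNorm_zero]
  set lam : ℝ := Np.toReal with hlam
  have hlam0 : 0 < lam := ENNReal.toReal_pos hz htop
  have hNe : Np = ENNReal.ofReal lam := (ENNReal.ofReal_toReal htop).symm
  -- normalisation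
  have h5 := H hk hCw.le hW (fun ξ => f ξ / lam) (fun ξ => div_nonneg (hf0 ξ) hlam0.le)
    (hfi.div_const lam)
    (fun s hs => by
      have : {ξ | s < f ξ / lam} = {ξ | s * lam < f ξ} := by
        ext ξ
        simp only [mem_ofPred_eq]
        rw [lt_div_iff₀ hlam0]
      rw [this]
      exact hfU _ (by positivity))
    (by
      have e1 : ∀ ξ, ‖f ξ / lam‖ₑ ^ p = ‖f ξ‖ₑ ^ p * (ENNReal.ofReal lam ^ p)⁻¹ := by
        intro ξ
        rw [← ENNReal.inv_rpow, ← ENNReal.mul_rpow_of_nonneg _ _ hp0.le]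
        congr 1
        rw [div_eq_mul_inv, enorm_mul, enorm_inv hlam0.ne', Real.enorm_of_nonneg hlam0.le]
      change ∫⁻ ξ, ‖f ξ / lam‖ₑ ^ p ∂μ ≤ 1
      simp_rw [e1]
      have hl : ENNReal.ofReal lam ^ p ≠ 0 := by
        rw [← hNe]
        intro h
        rw [ENNReal.rpow_eq_zero_iff_of_pos hp0] at h
        exact hz h
      rw [lintegral_mul_const' _ _ (ENNReal.inv_ne_top.2 hl)]
      have e2 : ENNReal.ofReal lam ^ p = ∫⁻ ξ, ‖f ξ‖ₑ ^ p ∂μ := by
        rw [← hNe, hNp, eLpNorm_eq_lintegral_rpow_enorm_toReal hpne ENNReal.ofReal_ne_top,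
          ENNReal.toReal_ofReal hp0.le, ← ENNReal.rpow_mul, one_div_mul_cancel hp0.ne',
          ENNReal.rpow_one]
      rw [← e2, ENNReal.mul_inv_cancel hl]
      rw [← hNe]
      exact ENNReal.rpow_ne_top_of_nonneg hp0.le htop)
  have e3 : T k μ (fun ξ => (f ξ : ℂ)) =
      (lam : ℂ) • T k μ (fun ξ => ((f ξ / lam : ℝ) : ℂ)) := by
    funext z
    rw [Pi.smul_apply, smul_eq_mul, ← T_smul]
    congr 1
    funext ξ
    have hlC : (lam : ℂ) ≠ 0 := by exact_mod_cast hlam0.ne'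
    push_cast
    field_simp
  rw [e3, eLpNorm_const_smul, hNe, mul_comm]
  have e5 : ‖(lam : ℂ)‖ₑ = ENNReal.ofReal lam := by
    rw [← ofReal_norm, Complex.norm_real, Real.norm_of_nonneg hlam0.le]
  rw [e5]
  refine mul_le_mul_left ?_ _
  refine le_trans ?_ (mul_le_mul_left (le_self_add (b := (1 : ℝ≥0∞))) _)
  rw [eLpNorm_eq_lintegral_rpow_enorm_toReal hqne ENNReal.ofReal_ne_top,
    ENNReal.toReal_ofReal hq0.le]
  refine (ENNReal.rpow_le_rpow h5 (by positivity)).trans (le_of_eq ?_)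
  rw [ENNReal.mul_rpow_of_nonneg _ _ (by positivity), ENNReal.ofReal_rpow_of_nonneg hCw.le
    (by positivity)]

/-- complex functions -/
theorem main_complex {qc q : ℝ} (hqc : 1 < qc) (hq : qc < q) :
    ∃ C : ℝ≥0∞, C ≠ ∞ ∧ ∀ {X Z : Type*} [MeasurableSpace X] [MeasurableSpace Z]
      {k : Z → X → ℂ} {μ : Measure X} {ν : Measure Z} [SFinite μ] [SFinite ν], Ker k →
      ∀ {Cw : ℝ}, 0 < Cw →
      ∀ {W : Set (Set X)}, (∀ A ∈ W, NullMeasurableSet A μ → μ A ≠ ∞ → ∀ lam : ℝ, 0 < lam →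
        ν {z | lam < ‖T k μ (indc A) z‖} ≤ ENNReal.ofReal (Cw * lam ^ (-qc)) * μ A) →
      ∀ f : X → ℂ, Integrable f μ →
      (∀ s, 0 < s → {ξ | s < (f ξ).re} ∈ W ∧ {ξ | (f ξ).re < -s} ∈ W ∧
        {ξ | s < (f ξ).im} ∈ W ∧ {ξ | (f ξ).im < -s} ∈ W) →
      eLpNorm (T k μ f) (ENNReal.ofReal q) ν ≤
        C * ENNReal.ofReal (Cw ^ (1 / q)) *
          eLpNorm f (ENNReal.ofReal (q / (q - (qc - 1)))) μ := by
  obtain ⟨C, hC, H⟩ := main_pos hqc hq
  refine ⟨4 * C, ENNReal.mul_ne_top (by norm_num) hC, ?_⟩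
  intro X Z _ _ k μ ν _ _ hk Cw hCw W hW f hf hU
  have hq1 : (1 : ℝ≥0∞) ≤ ENNReal.ofReal q := by
    rw [← ENNReal.ofReal_one]
    exact ENNReal.ofReal_le_ofReal (by linarith)
  set p : ℝ≥0∞ := ENNReal.ofReal (q / (q - (qc - 1))) with hp
  set D : ℝ≥0∞ := C * ENNReal.ofReal (Cw ^ (1 / q)) with hD
  -- the four parts
  set g1 : X → ℝ := fun ξ => max (f ξ).re 0 with hg1
  set g2 : X → ℝ := fun ξ => max (-(f ξ).re) 0 with hg2
  set g3 : X → ℝ := fun ξ => max (f ξ).im 0 with hg3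
  set g4 : X → ℝ := fun ξ => max (-(f ξ).im) 0 with hg4
  have hre : Integrable (fun ξ => (f ξ).re) μ := hf.re
  have him : Integrable (fun ξ => (f ξ).im) μ := hf.im
  have i1 : Integrable g1 μ := hre.pos_part
  have i2 : Integrable g2 μ := hre.neg_part
  have i3 : Integrable g3 μ := him.pos_part
  have i4 : Integrable g4 μ := him.neg_part
  have key : ∀ g : X → ℝ, (∀ ξ, 0 ≤ g ξ) → Integrable g μ → (∀ s, 0 < s → {ξ | s < g ξ} ∈ W) →
      (∀ ξ, g ξ ≤ ‖f ξ‖) → ∀ c : ℂ, ‖c‖ = 1 →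
      eLpNorm (T k μ (fun ξ => c * (g ξ : ℂ))) (ENNReal.ofReal q) ν
        ≤ D * eLpNorm f p μ := by
    intro g h0 hi hu hle c hc
    have e4 : T k μ (fun ξ => c * (g ξ : ℂ)) = c • T k μ (fun ξ => (g ξ : ℂ)) := by
      funext z
      rw [Pi.smul_apply, smul_eq_mul, ← T_smul]
    rw [e4, eLpNorm_const_smul, ← ofReal_norm, hc, ENNReal.ofReal_one, one_mul]
    refine (H hk hCw hW g h0 hi hu).trans (mul_le_mul_right (eLpNorm_mono fun ξ => ?_) _)
    rw [Real.norm_of_nonneg (h0 ξ)]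
    exact hle ξ
  have hnb : ∀ ξ, |(f ξ).re| ≤ ‖f ξ‖ := fun ξ => Complex.abs_re_le_norm _
  have hnb' : ∀ ξ, |(f ξ).im| ≤ ‖f ξ‖ := fun ξ => Complex.abs_im_le_norm _
  have k1 := key g1 (fun ξ => le_max_right _ _) i1 (fun s hs => by
      have : {ξ | s < g1 ξ} = {ξ | s < (f ξ).re} := by
        ext ξ
        simp only [mem_ofPred_eq, hg1, lt_max_iff]
        exact ⟨fun h => h.resolve_right (by linarith), Or.inl⟩
      rw [this]; exact (hU s hs).1)
    (fun ξ => max_le ((le_abs_self _).trans (hnb ξ)) (norm_nonneg _)) 1 norm_one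
  have k2 := key g2 (fun ξ => le_max_right _ _) i2 (fun s hs => by
      have : {ξ | s < g2 ξ} = {ξ | (f ξ).re < -s} := by
        ext ξ
        simp only [mem_ofPred_eq, hg2, lt_max_iff]
        constructor
        · intro h
          have := h.resolve_right (by linarith)
          linarith
        · intro h
          left; linarith
      rw [this]; exact (hU s hs).2.1)
    (fun ξ => max_le ((neg_le_abs _).trans (hnb ξ)) (norm_nonneg _)) (-1) (by simp)
  have k3 := key g3 (fun ξ => le_max_right _ _) i3 (fun s hs => by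
      have : {ξ | s < g3 ξ} = {ξ | s < (f ξ).im} := by
        ext ξ
        simp only [mem_ofPred_eq, hg3, lt_max_iff]
        exact ⟨fun h => h.resolve_right (by linarith), Or.inl⟩
      rw [this]; exact (hU s hs).2.2.1)
    (fun ξ => max_le ((le_abs_self _).trans (hnb' ξ)) (norm_nonneg _)) I Complex.norm_I
  have k4 := key g4 (fun ξ => le_max_right _ _) i4 (fun s hs => by
      have : {ξ | s < g4 ξ} = {ξ | (f ξ).im < -s} := by
        ext ξ
        simp only [mem_ofPred_eq, hg4, lt_max_iff]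
        constructor
        · intro h
          have := h.resolve_right (by linarith)
          linarith
        · intro h
          left; linarith
      rw [this]; exact (hU s hs).2.2.2)
    (fun ξ => max_le ((neg_le_abs _).trans (hnb' ξ)) (norm_nonneg _)) (-I) (by simp)
  have hdec : f = fun ξ => ((1 * (g1 ξ : ℂ) + -1 * (g2 ξ : ℂ)) + (I * (g3 ξ : ℂ) + -I * (g4 ξ : ℂ))) := by
    funext ξ
    have e1 : g1 ξ - g2 ξ = (f ξ).re := by
      simp only [hg1, hg2]
      rcases le_total 0 (f ξ).re with h | h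
      · rw [max_eq_left h, max_eq_right (by linarith), sub_zero]
      · rw [max_eq_right h, max_eq_left (by linarith)]; ring
    have e2 : g3 ξ - g4 ξ = (f ξ).im := by
      simp only [hg3, hg4]
      rcases le_total 0 (f ξ).im with h | h
      · rw [max_eq_left h, max_eq_right (by linarith), sub_zero]
      · rw [max_eq_right h, max_eq_left (by linarith)]; ring
    have e3 := (Complex.re_add_im (f ξ)).symm
    rw [← e1, ← e2] at e3
    rw [e3]
    push_cast
    ring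
  have j1 : Integrable (fun ξ => 1 * (g1 ξ : ℂ)) μ := i1.ofReal.const_mul 1
  have j2 : Integrable (fun ξ => -1 * (g2 ξ : ℂ)) μ := i2.ofReal.const_mul (-1)
  have j3 : Integrable (fun ξ => I * (g3 ξ : ℂ)) μ := i3.ofReal.const_mul I
  have j4 : Integrable (fun ξ => -I * (g4 ξ : ℂ)) μ := i4.ofReal.const_mul (-I)
  have hsplit : T k μ f =
      (T k μ (fun ξ => 1 * (g1 ξ : ℂ)) + T k μ (fun ξ => -1 * (g2 ξ : ℂ))) +
      (T k μ (fun ξ => I * (g3 ξ : ℂ)) + T k μ (fun ξ => -I * (g4 ξ : ℂ))) := by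
    funext z
    simp only [Pi.add_apply]
    have hj := T_add hk (f := fun ξ => 1 * (g1 ξ : ℂ) + -1 * (g2 ξ : ℂ))
      (g := fun ξ => I * (g3 ξ : ℂ) + -I * (g4 ξ : ℂ)) (j1.add j2) (j3.add j4) z
    rw [← T_add hk j1 j2, ← T_add hk j3 j4, ← hj, ← hdec]
  have m1 : AEStronglyMeasurable (T k μ (fun ξ => 1 * (g1 ξ : ℂ))) ν :=
    (T_meas hk j1.1).aestronglyMeasurable
  have m2 : AEStronglyMeasurable (T k μ (fun ξ => -1 * (g2 ξ : ℂ))) ν :=
    (T_meas hk j2.1).aestronglyMeasurable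
  have m3 : AEStronglyMeasurable (T k μ (fun ξ => I * (g3 ξ : ℂ))) ν :=
    (T_meas hk j3.1).aestronglyMeasurable
  have m4 : AEStronglyMeasurable (T k μ (fun ξ => -I * (g4 ξ : ℂ))) ν :=
    (T_meas hk j4.1).aestronglyMeasurable
  rw [hsplit]
  refine (eLpNorm_add_le (m1.add m2) (m3.add m4) hq1).trans ?_
  refine (add_le_add (eLpNorm_add_le m1 m2 hq1) (eLpNorm_add_le m3 m4 hq1)).trans ?_
  refine (add_le_add (add_le_add k1 k2) (add_le_add k3 k4)).trans (le_of_eq ?_)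
  rw [hD]
  ring

end Pool.Agent.R247.LC
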