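import Pool.Agent.R247.LC.Gen
set_option autoImplicit false

/-!
# Two point version of the generic theorem, with the dependence on the complexity `N`

Weak type bounds at the exponents `3` (with constant `K0 N`) and `4` (with constant `K1`).
-/

namespace Pool.Agent.R247.LC

open MeasureTheory Set Filter Topology Complex
open scoped ENNReal

/-- the two weak type bounds for the sets of a class `W` -/
def Weak2 {X Z : Type*} [MeasurableSpace X] [MeasurableSpace Z] (k : Z → X → ℂ) (μ : Measure X)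
    (ν : Measure Z) (K0 K1 N : ℝ) (W : Set (Set X)) : Prop :=
  ∀ A ∈ W, NullMeasurableSet A μ → μ A ≠ ∞ → ∀ lam : ℝ, 0 < lam →
    ν {z | lam < ‖T k μ (indc A) z‖} ≤ ENNReal.ofReal (K0 * N * lam ^ (-3 : ℝ)) * μ A ∧
    ν {z | lam < ‖T k μ (indc A) z‖} ≤ ENNReal.ofReal (K1 * lam ^ (-4 : ℝ)) * μ A ^ 2

variable {X Z : Type*} [MeasurableSpace X] [MeasurableSpace Z]
variable {k : Z → X → ℂ} {μ : Measure X} {ν : Measure Z}

/-- strong type for sets -/
theorem strong_set2 [SFinite μ] (hk : Ker k) {K0 K1 N : ℝ} (h0 : 0 ≤ K0) (h1 : 0 ≤ K1)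
    (hN : 0 < N) {r : ℝ} (hr3 : 3 < r) (hr4 : r < 4) {A : Set X} (hA : NullMeasurableSet A μ)
    (hfin : μ A ≠ ∞)
    (hw : ∀ lam : ℝ, 0 < lam →
      ν {z | lam < ‖T k μ (indc A) z‖} ≤ ENNReal.ofReal (K0 * N * lam ^ (-3 : ℝ)) * μ A ∧
      ν {z | lam < ‖T k μ (indc A) z‖} ≤ ENNReal.ofReal (K1 * lam ^ (-4 : ℝ)) * μ A ^ 2) :
    ∫⁻ z, ‖T k μ (indc A) z‖ₑ ^ r ∂ν
      ≤ ENNReal.ofReal (r * (K0 / (r - 3) + K1 / (4 - r)) * N ^ (4 - r)) * μ A ^ (r - 2) := by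
  have hr0 : 0 < r := by linarith
  set V : ℝ := (μ A).toReal with hV
  have hV0 : 0 ≤ V := ENNReal.toReal_nonneg
  have hVe : μ A = ENNReal.ofReal V := (ENNReal.ofReal_toReal hfin).symm
  have hint : Integrable (indc A) μ := indc_int hA hfin
  rcases eq_or_lt_of_le hV0 with hz | hVpos
  · have hzero : ∀ z, ‖T k μ (indc A) z‖ₑ ^ r = 0 := by
      intro z
      have h2 := sup_bound hk hA z
      rw [← hV, ← hz] at h2
      have h3 : T k μ (indc A) z = 0 := norm_le_zero_iff.1 h2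
      rw [h3, enorm_zero, ENNReal.zero_rpow_of_pos hr0]
    simp_rw [hzero]
    simp
  have hmeas : Measurable fun z => ‖T k μ (indc A) z‖ := (T_meas hk hint.1).norm.measurable
  have e1 : ∀ z, ‖T k μ (indc A) z‖ₑ ^ r = ENNReal.ofReal (‖T k μ (indc A) z‖ ^ r) := by
    intro z
    rw [← ofReal_norm, ENNReal.ofReal_rpow_of_nonneg (norm_nonneg _) hr0.le]
  simp_rw [e1]
  rw [lintegral_rpow_eq_lintegral_meas_lt_mul ν
    (Eventually.of_forall fun z => norm_nonneg _) hmeas.aemeasurable hr0]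
  set L : ℝ := V / N with hL
  have hL0 : 0 < L := by positivity
  have hlow : ∫⁻ t in Ioc 0 L, ν {z | t < ‖T k μ (indc A) z‖} * ENNReal.ofReal (t ^ (r - 1)) ≤
      ENNReal.ofReal (K0 * N * V * (L ^ (r - 3) / (r - 3))) := by
    have hb : ∀ t ∈ Ioc 0 L, ν {z | t < ‖T k μ (indc A) z‖} * ENNReal.ofReal (t ^ (r - 1)) ≤
        ENNReal.ofReal (K0 * N * V) * ENNReal.ofReal (t ^ (-(4 - r))) := by
      intro t ht
      have ht0 : (0 : ℝ) < t := ht.1
      refine (mul_le_mul_left (hw t ht0).1 _).trans (le_of_eq ?_)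
      rw [hVe, ← ENNReal.ofReal_mul (by positivity), ← ENNReal.ofReal_mul (by positivity),
        ← ENNReal.ofReal_mul (by positivity)]
      congr 1
      have : t ^ (-(4 - r)) = t ^ (-3 : ℝ) * t ^ (r - 1) := by
        rw [← Real.rpow_add ht0]; congr 1; ring
      rw [this]; ring
    refine (setLIntegral_mono' measurableSet_Ioc hb).trans ?_
    rw [lintegral_const_mul' _ _ ENNReal.ofReal_ne_top, lint_low (by linarith) hL0.le,
      ← ENNReal.ofReal_mul (by positivity), show 1 - (4 - r) = r - 3 by ring]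
  have hhigh : ∫⁻ t in Ioi L, ν {z | t < ‖T k μ (indc A) z‖} * ENNReal.ofReal (t ^ (r - 1)) ≤
      ENNReal.ofReal (K1 * V ^ 2 * (L ^ (r - 4) / (4 - r))) := by
    have hb : ∀ t ∈ Ioi L, ν {z | t < ‖T k μ (indc A) z‖} * ENNReal.ofReal (t ^ (r - 1)) ≤
        ENNReal.ofReal (K1 * V ^ 2) * ENNReal.ofReal (t ^ (-(5 - r))) := by
      intro t ht
      have ht0 : (0 : ℝ) < t := hL0.trans ht
      refine (mul_le_mul_left (hw t ht0).2 _).trans (le_of_eq ?_)
      rw [hVe, ← ENNReal.ofReal_pow hV0, ← ENNReal.ofReal_mul (by positivity),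
        ← ENNReal.ofReal_mul (by positivity), ← ENNReal.ofReal_mul (by positivity)]
      congr 1
      have : t ^ (-(5 - r)) = t ^ (-4 : ℝ) * t ^ (r - 1) := by
        rw [← Real.rpow_add ht0]; congr 1; ring
      rw [this]; ring
    refine (setLIntegral_mono' measurableSet_Ioi hb).trans ?_
    rw [lintegral_const_mul' _ _ ENNReal.ofReal_ne_top, lint_high (by linarith) hL0,
      ← ENNReal.ofReal_mul (by positivity), show 1 - (5 - r) = r - 4 by ring,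
      show 5 - r - 1 = 4 - r by ring]
  rw [← Ioc_union_Ioi_eq_Ioi hL0.le]
  have h3r : 0 < r - 3 := by linarith
  have h4r : 0 < 4 - r := by linarith
  refine (mul_le_mul_right ((lintegral_union_le _ _ _).trans (add_le_add hlow hhigh)) _).trans
    (le_of_eq ?_)
  rw [← ENNReal.ofReal_add (by positivity) (by positivity), ← ENNReal.ofReal_mul hr0.le, hVe,
    ENNReal.ofReal_rpow_of_nonneg hV0 (by linarith), ← ENNReal.ofReal_mul (by positivity)]
  congr 1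
  have e2 : L ^ (r - 3) = V ^ (r - 3) * N ^ (3 - r) := by
    rw [hL, Real.div_rpow hV0 hN.le, div_eq_mul_inv, ← Real.rpow_neg hN.le]
    congr 2; ring
  have e3 : L ^ (r - 4) = V ^ (r - 4) * N ^ (4 - r) := by
    rw [hL, Real.div_rpow hV0 hN.le, div_eq_mul_inv, ← Real.rpow_neg hN.le]
    congr 2; ring
  have e4 : V * V ^ (r - 3) = V ^ (r - 2) := by
    rw [mul_comm, ← Real.rpow_add_one hVpos.ne']; congr 1; ring
  have e5 : V ^ 2 * V ^ (r - 4) = V ^ (r - 2) := by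
    rw [← Real.rpow_natCast, ← Real.rpow_add hVpos]; congr 1; push_cast; ring
  have e6 : N * N ^ (3 - r) = N ^ (4 - r) := by
    rw [mul_comm, ← Real.rpow_add_one hN.ne']; congr 1; ring
  rw [e2, e3]
  calc r * (K0 * N * V * (V ^ (r - 3) * N ^ (3 - r) / (r - 3)) +
        K1 * V ^ 2 * (V ^ (r - 4) * N ^ (4 - r) / (4 - r)))
      = r * (K0 * (N * N ^ (3 - r)) * (V * V ^ (r - 3)) / (r - 3) +
        K1 * (V ^ 2 * V ^ (r - 4)) * N ^ (4 - r) / (4 - r)) := by ring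
    _ = _ := by rw [e4, e5, e6]; ring

/-- normalised form; the constant depends on `q`, `K0`, `K1` only. -/
theorem main_norm2 {q : ℝ} (hq3 : 3 < q) (hq4 : q < 4) {K0 K1 : ℝ} (hK0 : 0 ≤ K0)
    (hK1 : 0 ≤ K1) :
    ∃ C : ℝ≥0∞, C ≠ ∞ ∧ ∀ {X Z : Type*} [MeasurableSpace X] [MeasurableSpace Z]
      {k : Z → X → ℂ} {μ : Measure X} {ν : Measure Z} [SFinite μ] [SFinite ν], Ker k →
      ∀ {N : ℝ}, 0 < N → ∀ {W : Set (Set X)}, Weak2 k μ ν K0 K1 N W →
      ∀ f : X → ℝ, (∀ ξ, 0 ≤ f ξ) → Integrable f μ → (∀ s, 0 < s → {ξ | s < f ξ} ∈ W) →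
      ∫⁻ ξ, ‖f ξ‖ₑ ^ (q / (q - 2)) ∂μ ≤ 1 →
      ∫⁻ z, ‖T k μ (fun ξ => (f ξ : ℂ)) z‖ₑ ^ q ∂ν ≤ C * ENNReal.ofReal (N ^ (4 - q)) := by
  have hqg : 0 < q - 2 := by linarith
  set p : ℝ := q / (q - 2) with hp
  have hp1 : 1 ≤ p := by
    rw [hp, le_div_iff₀ hqg]
    linarith
  have hp0 : 0 < p := by linarith
  set q0 : ℝ := (3 + q) / 2 with hq0
  set q1 : ℝ := (q + 4) / 2 with hq1
  have hq0a : 3 < q0 := by rw [hq0]; linarith
  have hq0b : q0 < q := by rw [hq0]; linarith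
  have hq1a : q < q1 := by rw [hq1]; linarith
  have hq1b : q1 < 4 := by rw [hq1]; linarith
  obtain ⟨C, hC, H⟩ := interp (gam := 2) (q := q) (q0 := q0) (q1 := q1) (by norm_num)
    (by linarith) (by linarith) hq0b hq1a
  have hqp : 0 < q := by linarith
  set D0 : ℝ := q0 * (K0 / (q0 - 3) + K1 / (4 - q0)) with hD0
  set D1 : ℝ := q1 * (K0 / (q1 - 3) + K1 / (4 - q1)) with hD1
  have hD0' : 0 ≤ D0 := by
    have a1 : 0 < q0 - 3 := by linarith
    have a2 : 0 < 4 - q0 := by linarith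
    have a3 : 0 < q0 := by linarith
    positivity
  have hD1' : 0 ≤ D1 := by
    have a1 : 0 < q1 - 3 := by linarith
    have a2 : 0 < 4 - q1 := by linarith
    have a3 : 0 < q1 := by linarith
    positivity
  refine ⟨C * (ENNReal.ofReal D0 + ENNReal.ofReal D1),
    ENNReal.mul_ne_top hC (ENNReal.add_ne_top.2 ⟨ENNReal.ofReal_ne_top, ENNReal.ofReal_ne_top⟩),
    ?_⟩
  intro X Z _ _ k μ ν _ _ hk N hN W hW f hf0 hfi hfU hfp
  -- measurable version
  obtain ⟨g, hgm, hg0', hfg⟩ : ∃ g : X → ℝ, Measurable g ∧ (∀ ξ, 0 ≤ g ξ) ∧ f =ᵐ[μ] g := by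
    refine ⟨fun ξ => max (hfi.1.mk f ξ) 0, ?_, fun ξ => le_max_right _ _, ?_⟩
    · exact (hfi.1.stronglyMeasurable_mk.measurable).max measurable_const
    · filter_upwards [hfi.1.ae_eq_mk] with ξ hξ
      rw [← hξ, max_eq_left (hf0 ξ)]
  have hgi : Integrable g μ := hfi.congr hfg
  have hset : ∀ s, {ξ | s < g ξ} =ᵐ[μ] {ξ | s < f ξ} := by
    intro s
    filter_upwards [hfg] with ξ hξ
    apply propext
    change s < g ξ ↔ s < f ξ
    rw [hξ]
  have hnull : ∀ s, NullMeasurableSet {ξ | s < f ξ} μ := fun s =>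
    (measurableSet_lt measurable_const hgm).nullMeasurableSet.congr (hset s)
  have hgp : ∫⁻ ξ, ENNReal.ofReal (g ξ ^ p) ∂μ ≤ 1 := by
    refine le_trans (le_of_eq ?_) hfp
    refine lintegral_congr_ae ?_
    filter_upwards [hfg] with ξ hξ
    rw [← hξ, ← ENNReal.ofReal_rpow_of_nonneg (hf0 ξ) hp0.le, Real.enorm_of_nonneg (hf0 ξ)]
  have hv1 : ∀ s, 0 < s → ENNReal.ofReal (s ^ p) * μ {ξ | s < g ξ} ≤ 1 := by
    intro s hs
    have h1 := mul_meas_ge_le_lintegral (μ := μ)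
      (f := fun ξ => ENNReal.ofReal (g ξ ^ p)) ((hgm.pow_const p).ennreal_ofReal)
      (ENNReal.ofReal (s ^ p))
    refine (le_trans (mul_le_mul_right (measure_mono ?_) _) h1).trans hgp
    intro ξ hξ
    have h2 : s < g ξ := hξ
    exact ENNReal.ofReal_le_ofReal (Real.rpow_le_rpow hs.le h2.le hp0.le)
  have hfin : ∀ s, 0 < s → μ {ξ | s < g ξ} ≠ ∞ := by
    intro s hs htop
    have h1 := hv1 s hs
    rw [htop, ENNReal.mul_top] at h1
    · simp at h1
    · rw [Ne, ENNReal.ofReal_eq_zero, not_le]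
      positivity
  have hv2 : ∫⁻ s in Ioi 0, ENNReal.ofReal (s ^ (p - 1)) * μ {ξ | s < g ξ} ≤ 1 := by
    have h1 := lintegral_rpow_eq_lintegral_meas_lt_mul (μ := μ)
      (Eventually.of_forall hg0') hgm.aemeasurable hp0
    rw [h1] at hgp
    have h2 : (1 : ℝ≥0∞) ≤ ENNReal.ofReal p := by
      rw [← ENNReal.ofReal_one]
      exact ENNReal.ofReal_le_ofReal hp1
    refine le_trans ?_ hgp
    refine le_trans ?_ (le_mul_of_one_le_left zero_le h2)
    refine lintegral_mono fun s => ?_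
    rw [mul_comm]
  have hstr : ∀ r : ℝ, 3 < r → r < 4 → ∀ s, 0 < s →
      ∫⁻ z, ‖T k μ (indc {ξ | s < g ξ}) z‖ₑ ^ r ∂ν ≤
        ENNReal.ofReal (r * (K0 / (r - 3) + K1 / (4 - r)) * N ^ (4 - r)) *
          μ {ξ | s < g ξ} ^ (r - 2) := by
    intro r hr hr' s hs
    simp_rw [T_ae_set (k := k) (hset s)]
    rw [measure_congr (hset s)]
    have hf' : μ {ξ | s < f ξ} ≠ ∞ := by rw [← measure_congr (hset s)]; exact hfin s hs
    exact strong_set2 hk hK0 hK1 hN hr hr' (hnull s) hf' (hW _ (hfU s hs) (hnull s) hf')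
  have hNe : ENNReal.ofReal N ≠ ∞ := ENNReal.ofReal_ne_top
  have hum := u_meas (μ := μ) hk hgm
  have hsc : ∀ r : ℝ, 3 < r → r < 4 → ∀ s, 0 < s →
      ∫⁻ z, (ENNReal.ofReal N * ‖T k μ (indc {ξ | s < g ξ}) z‖ₑ) ^ r ∂ν ≤
        ENNReal.ofReal (r * (K0 / (r - 3) + K1 / (4 - r)) * N ^ (4 : ℝ)) *
          μ {ξ | s < g ξ} ^ (r - 2) := by
    intro r hr hr' s hs
    have hr0 : 0 < r := by linarith
    have e : ∀ z, (ENNReal.ofReal N * ‖T k μ (indc {ξ | s < g ξ}) z‖ₑ) ^ r =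
        ENNReal.ofReal (N ^ r) * ‖T k μ (indc {ξ | s < g ξ}) z‖ₑ ^ r := by
      intro z
      rw [ENNReal.mul_rpow_of_nonneg _ _ hr0.le, ENNReal.ofReal_rpow_of_nonneg hN.le hr0.le]
    simp_rw [e]
    rw [lintegral_const_mul' _ _ ENNReal.ofReal_ne_top]
    refine (mul_le_mul_right (hstr r hr hr' s hs) _).trans (le_of_eq ?_)
    rw [← mul_assoc, ← ENNReal.ofReal_mul (by positivity)]
    congr 2
    have e7 : N ^ (4 : ℝ) = N ^ r * N ^ (4 - r) := by
      rw [← Real.rpow_add hN]; congr 1; ring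
    rw [e7]; ring
  have hmain := H (Z := Z) (nu := ν)
    (u := fun s z => ENNReal.ofReal N * ‖T k μ (indc {ξ | s < g ξ}) z‖ₑ)
    (by exact measurable_const.mul hum)
    (v := fun s => μ {ξ | s < g ξ}) ENNReal.ofReal_ne_top ENNReal.ofReal_ne_top
    (hsc q0 hq0a (by linarith)) (hsc q1 (by linarith) hq1b) hv1 hv2
  have hin : ∀ z, ∫⁻ s in Ioi (0 : ℝ), ENNReal.ofReal N * ‖T k μ (indc {ξ | s < g ξ}) z‖ₑ =
      ENNReal.ofReal N * ∫⁻ s in Ioi (0 : ℝ), ‖T k μ (indc {ξ | s < g ξ}) z‖ₑ := by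
    intro z
    rw [lintegral_const_mul' _ _ hNe]
  simp_rw [hin] at hmain
  have e8 : ∀ z, (ENNReal.ofReal N * ∫⁻ s in Ioi (0 : ℝ), ‖T k μ (indc {ξ | s < g ξ}) z‖ₑ) ^ q =
      ENNReal.ofReal (N ^ q) * (∫⁻ s in Ioi (0 : ℝ), ‖T k μ (indc {ξ | s < g ξ}) z‖ₑ) ^ q := by
    intro z
    rw [ENNReal.mul_rpow_of_nonneg _ _ hqp.le, ENNReal.ofReal_rpow_of_nonneg hN.le hqp.le]
  simp_rw [e8] at hmain
  rw [lintegral_const_mul' _ _ ENNReal.ofReal_ne_top] at hmain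
  have hinv : ENNReal.ofReal (N ^ (-q)) * ENNReal.ofReal (N ^ q) = 1 := by
    rw [← ENNReal.ofReal_mul (by positivity), ← Real.rpow_add hN]
    simp
  have hmain2 : ∫⁻ z, (∫⁻ s in Ioi (0 : ℝ), ‖T k μ (indc {ξ | s < g ξ}) z‖ₑ) ^ q ∂ν ≤
      C * (ENNReal.ofReal D0 + ENNReal.ofReal D1) * ENNReal.ofReal (N ^ (4 - q)) := by
    calc ∫⁻ z, (∫⁻ s in Ioi (0 : ℝ), ‖T k μ (indc {ξ | s < g ξ}) z‖ₑ) ^ q ∂ν
        = ENNReal.ofReal (N ^ (-q)) * (ENNReal.ofReal (N ^ q) *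
            ∫⁻ z, (∫⁻ s in Ioi (0 : ℝ), ‖T k μ (indc {ξ | s < g ξ}) z‖ₑ) ^ q ∂ν) := by
          rw [← mul_assoc, hinv, one_mul]
      _ ≤ ENNReal.ofReal (N ^ (-q)) * (C * (ENNReal.ofReal (D0 * N ^ (4 : ℝ)) +
            ENNReal.ofReal (D1 * N ^ (4 : ℝ)))) := mul_le_mul_right hmain _
      _ = _ := by
          have e9 : ENNReal.ofReal (D0 * N ^ (4 : ℝ)) =
              ENNReal.ofReal D0 * ENNReal.ofReal (N ^ (4 : ℝ)) := ENNReal.ofReal_mul hD0'
          have e10 : ENNReal.ofReal (D1 * N ^ (4 : ℝ)) =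
              ENNReal.ofReal D1 * ENNReal.ofReal (N ^ (4 : ℝ)) := ENNReal.ofReal_mul hD1'
          have e11 : ENNReal.ofReal (N ^ (4 - q)) =
              ENNReal.ofReal (N ^ (-q)) * ENNReal.ofReal (N ^ (4 : ℝ)) := by
            rw [← ENNReal.ofReal_mul (by positivity), ← Real.rpow_add hN]
            congr 2; ring
          rw [e9, e10, e11]
          ring
  refine le_trans (lintegral_mono fun z => ?_) hmain2
  have hc : T k μ (fun ξ => (f ξ : ℂ)) z = T k μ (fun ξ => (g ξ : ℂ)) z := by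
    refine T_congr ?_ _
    filter_upwards [hfg] with ξ hξ
    rw [hξ]
  rw [hc]
  exact ENNReal.rpow_le_rpow (layer hk hgm hg0' hgi z) (by linarith)

end Pool.Agent.R247.LC
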