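import Mathlib
set_option autoImplicit false

/-!
# Oscillatory integrals over unions of intervals and over planar sets of bounded line complexity
-/

namespace Pool.Agent.R247.LC

open MeasureTheory Set Filter Topology Complex
open scoped ENNReal

/-- `S` is a union of at most `N` intervals of the line (bounded or not, possibly empty). -/
def Intervals (N : ℕ) (S : Set ℝ) : Prop :=
  ∃ K : Fin N → Set ℝ, (∀ i, Convex ℝ (K i)) ∧ S = ⋃ i, K i

theorem single {G g : ℝ → ℂ} {M R : ℝ} (hM0 : 0 ≤ M) (hG : ∀ x, HasDerivAt G (g x) x)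
    (hg : Continuous g) (hM : ∀ x, ‖G x‖ ≤ M) {K : Set ℝ} (hK : IsPreconnected K)
    (hKR : K ⊆ Ioc 0 R) : ‖∫ x in K, g x‖ ≤ 2 * M := by
  rcases K.eq_empty_or_nonempty with h0 | h0
  · rw [h0]
    simp
    exact hM0
  have hb : BddBelow K := ⟨0, fun x hx => (hKR hx).1.le⟩
  have ha : BddAbove K := ⟨R, fun x hx => (hKR hx).2⟩
  have h1 : Ioo (sInf K) (sSup K) ⊆ K := IsConnected.Ioo_csInf_csSup_subset ⟨h0, hK⟩ hb ha
  have h2 : K ⊆ Icc (sInf K) (sSup K) := subset_Icc_csInf_csSup hb ha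
  have hab : sInf K ≤ sSup K := by
    obtain ⟨x, hx⟩ := h0
    exact (h2 hx).1.trans (h2 hx).2
  have h3 : K =ᵐ[volume] Ioc (sInf K) (sSup K) := by
    refine Filter.EventuallyLE.antisymm ?_ ?_
    · exact (LE.le.eventuallyLE h2).trans Ioc_ae_eq_Icc.symm.le
    · exact (Ioo_ae_eq_Ioc.symm.le).trans (LE.le.eventuallyLE h1)
  rw [setIntegral_congr_set h3, ← intervalIntegral.integral_of_le hab,
    intervalIntegral.integral_eq_sub_of_hasDerivAt (fun x _ => hG x) (hg.intervalIntegrable _ _)]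
  refine (norm_sub_le _ _).trans ?_
  linarith [hM (sSup K), hM (sInf K)]

theorem finite_union {G g : ℝ → ℂ} {M R : ℝ} (hM0 : 0 ≤ M) (hG : ∀ x, HasDerivAt G (g x) x)
    (hg : Continuous g) (hM : ∀ x, ‖G x‖ ≤ M) :
    ∀ (n : ℕ) (F : Finset (Set ℝ)), F.card ≤ n → (∀ K ∈ F, IsPreconnected K ∧ K ⊆ Ioc 0 R) →
      ‖∫ x in ⋃ K ∈ F, K, g x‖ ≤ 2 * M * n := by
  classical
  intro n
  induction n with
  | zero =>
    intro F hF _
    have : F = ∅ := Finset.card_eq_zero.1 (Nat.le_zero.1 hF)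
    rw [this]
    simp
  | succ n ih =>
    intro F hF hK
    by_cases hd : (F : Set (Set ℝ)).PairwiseDisjoint id
    · have hint : ∀ K ∈ F, IntegrableOn g K := by
        intro K hKF
        have : IntegrableOn g (Ioc 0 R) := (hg.integrableOn_Icc (a := 0) (b := R)).mono_set
          Ioc_subset_Icc_self
        exact this.mono_set (hK K hKF).2
      rw [integral_biUnion_finset F (fun K hKF => (hK K hKF).1.ordConnected.measurableSet) hd hint]
      refine (norm_sum_le _ _).trans ?_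
      refine (Finset.sum_le_sum fun K hKF => single hM0 hG hg hM (hK K hKF).1
        (hK K hKF).2).trans ?_
      rw [Finset.sum_const, nsmul_eq_mul]
      have : (F.card : ℝ) ≤ ((n + 1 : ℕ) : ℝ) := by exact_mod_cast hF
      nlinarith
    · -- merge two sets
      simp only [Set.PairwiseDisjoint, Set.Pairwise, not_forall] at hd
      obtain ⟨A, hA, B, hB, hAB, hnd⟩ := hd
      have hnd' : (A ∩ B).Nonempty := by
        rw [Function.onFun, id, id, Set.disjoint_iff_inter_eq_empty] at hnd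
        exact Set.nonempty_iff_ne_empty.2 hnd
      have hA' : A ∈ F := hA
      have hB' : B ∈ F := hB
      set F' : Finset (Set ℝ) := insert (A ∪ B) ((F.erase A).erase B) with hF'
      have hcard : F'.card ≤ n := by
        have h1 : ((F.erase A).erase B).card = F.card - 1 - 1 := by
          rw [Finset.card_erase_of_mem (Finset.mem_erase.2 ⟨hAB.symm, hB'⟩),
            Finset.card_erase_of_mem hA']
        have h2 := Finset.card_insert_le (A ∪ B) ((F.erase A).erase B)
        have h3 : 2 ≤ F.card := Finset.one_lt_card.2 ⟨A, hA', B, hB', hAB⟩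
        rw [← hF'] at h2
        omega
      have hU : ⋃ K ∈ F', K = ⋃ K ∈ F, K := by
        ext x
        simp only [hF', mem_iUnion, Finset.mem_insert, Finset.mem_erase, exists_prop]
        constructor
        · rintro ⟨K, hK1 | hK1, hx⟩
          · rw [hK1] at hx
            rcases hx with hx | hx
            · exact ⟨A, hA', hx⟩
            · exact ⟨B, hB', hx⟩
          · exact ⟨K, hK1.2.2, hx⟩
        · rintro ⟨K, hK1, hx⟩
          by_cases h1 : K = A
          · exact ⟨A ∪ B, Or.inl rfl, Or.inl (h1 ▸ hx)⟩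
          by_cases h2 : K = B
          · exact ⟨A ∪ B, Or.inl rfl, Or.inr (h2 ▸ hx)⟩
          · exact ⟨K, Or.inr ⟨h2, h1, hK1⟩, hx⟩
      rw [← hU]
      refine (ih F' hcard ?_).trans ?_
      · intro K hKF
        rw [hF', Finset.mem_insert, Finset.mem_erase, Finset.mem_erase] at hKF
        rcases hKF with h | h
        · rw [h]
          obtain ⟨x, hx1, hx2⟩ := hnd'
          exact ⟨(hK A hA').1.union x hx1 hx2 (hK B hB').1, union_subset (hK A hA').2 (hK B hB').2⟩
        · exact hK K h.2.2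
      · push_cast
        nlinarith

theorem intervals_bound {G g : ℝ → ℂ} {M : ℝ} (hM0 : 0 ≤ M) (hG : ∀ x, HasDerivAt G (g x) x)
    (hg : Continuous g) (hM : ∀ x, ‖G x‖ ≤ M) {N : ℕ} {S : Set ℝ} (hS : Intervals N S) :
    ‖∫ x in Ioi 0, S.indicator g x‖ ≤ 2 * M * N := by
  classical
  obtain ⟨K, hK, rfl⟩ := hS
  by_cases hint : IntegrableOn ((⋃ i, K i).indicator g) (Ioi 0)
  swap
  · rw [integral_undef hint, norm_zero]
    positivity
  have hlim := intervalIntegral_tendsto_integral_Ioi (0 : ℝ) hint tendsto_id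
  refine le_of_tendsto hlim.norm ?_
  filter_upwards [eventually_ge_atTop (0 : ℝ)] with R hR
  have hmeas : ∀ i, MeasurableSet (K i) := fun i => (hK i).ordConnected.measurableSet
  simp only [id]
  rw [intervalIntegral.integral_of_le hR, integral_indicator (MeasurableSet.iUnion hmeas),
    Measure.restrict_restrict (MeasurableSet.iUnion hmeas)]
  set F : Finset (Set ℝ) := Finset.univ.image fun i => K i ∩ Ioc 0 R with hF
  have hU : (⋃ i, K i) ∩ Ioc 0 R = ⋃ L ∈ F, L := by
    rw [iUnion_inter, hF]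
    ext x
    simp
  rw [hU]
  refine finite_union (R := R) hM0 hG hg hM N F ?_ ?_
  · rw [hF]
    exact Finset.card_image_le.trans (by simp)
  · intro L hL
    rw [hF, Finset.mem_image] at hL
    obtain ⟨i, _, rfl⟩ := hL
    refine ⟨?_, inter_subset_right⟩
    exact ((hK i).inter (convex_Ioc 0 R)).isPreconnected

/-- the phase integral along a ray -/
theorem ray_bound {t : ℝ} (ht : t ≠ 0) {N : ℕ} {S : Set ℝ} (hS : Intervals N S) :
    ‖∫ r in Ioi (0 : ℝ), S.indicator (fun r : ℝ => (r : ℂ) * cexp (-(t * r ^ 2 : ℝ) * I)) r‖ ≤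
      N / |t| := by
  have ht' : (t : ℂ) ≠ 0 := by exact_mod_cast ht
  set G : ℝ → ℂ := fun r => (-(2 * t * I))⁻¹ * cexp (-(t * r ^ 2 : ℝ) * I) with hGdef
  have hG : ∀ x : ℝ, HasDerivAt G ((x : ℂ) * cexp (-(t * x ^ 2 : ℝ) * I)) x := by
    intro x
    have h1 : HasDerivAt (fun r : ℝ => (-((t * r ^ 2 : ℝ) : ℂ)) * I)
        (-((t * (2 * x) : ℝ) : ℂ) * I) x := by
      have h2 : HasDerivAt (fun r : ℝ => t * r ^ 2) (t * (2 * x)) x := by
        have := (hasDerivAt_pow 2 x).const_mul t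
        simpa using this
      exact (h2.ofReal_comp.neg).mul_const I
    have h3 := h1.cexp.const_mul ((-(2 * t * I))⁻¹ : ℂ)
    refine h3.congr_deriv ?_
    have hI : I ≠ 0 := I_ne_zero
    push_cast
    field_simp
  have hM : ∀ x : ℝ, ‖G x‖ ≤ 1 / (2 * |t|) := by
    intro x
    rw [hGdef]
    simp only
    have e : -((t * x ^ 2 : ℝ) : ℂ) * I = ((-(t * x ^ 2) : ℝ) : ℂ) * I := by push_cast; ring
    rw [norm_mul, e, Complex.norm_exp_ofReal_mul_I, mul_one, norm_inv, norm_neg, norm_mul,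
      norm_mul, Complex.norm_I, Complex.norm_real, mul_one, Real.norm_eq_abs]
    simp
  have h := intervals_bound (M := 1 / (2 * |t|)) (by positivity) hG (by fun_prop) hM hS
  refine h.trans (le_of_eq ?_)
  have : |t| ≠ 0 := abs_ne_zero.2 ht
  field_simp

/-- Phase integrals over planar sets whose sections by the rays from the origin are, on average,
unions of at most `N` intervals. -/
theorem plane_bound {t : ℝ} (ht : t ≠ 0) {N : ℝ} (hN : 0 ≤ N) {W : Set (ℝ × ℝ)} {n : ℝ → ℕ}
    (hn : ∫⁻ θ in Ioo (-Real.pi) Real.pi, (n θ : ℝ≥0∞) ≤ ENNReal.ofReal (2 * Real.pi * N))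
    (hW : ∀ᵐ θ ∂(volume.restrict (Ioo (-Real.pi) Real.pi)),
      Intervals (n θ) {r | 0 < r ∧ (r * Real.cos θ, r * Real.sin θ) ∈ W}) :
    ‖∫ p : ℝ × ℝ, W.indicator (fun p => cexp (-(t * (p.1 ^ 2 + p.2 ^ 2) : ℝ) * I)) p‖ ≤
      2 * Real.pi * N / |t| := by
  rw [← integral_comp_polarCoord_symm]
  have htar : polarCoord.target = Ioi (0 : ℝ) ×ˢ Ioo (-Real.pi) Real.pi := rfl
  rw [htar, Measure.volume_eq_prod, ← Measure.prod_restrict]
  have hpi := Real.pi_pos
  have hta : 0 < |t| := abs_pos.2 ht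
  by_cases hint : Integrable (fun p : ℝ × ℝ => p.1 • W.indicator
      (fun p => cexp (-(t * (p.1 ^ 2 + p.2 ^ 2) : ℝ) * I)) (polarCoord.symm p))
      ((volume.restrict (Ioi (0 : ℝ))).prod (volume.restrict (Ioo (-Real.pi) Real.pi)))
  swap
  · rw [integral_undef hint, norm_zero]
    positivity
  rw [integral_prod_symm _ hint]
  have hb : ∀ θ : ℝ, Intervals (n θ) {r | 0 < r ∧ (r * Real.cos θ, r * Real.sin θ) ∈ W} →
      ‖∫ r in Ioi (0 : ℝ), (r, θ).1 • W.indicator
      (fun p => cexp (-(t * (p.1 ^ 2 + p.2 ^ 2) : ℝ) * I)) (polarCoord.symm (r, θ))‖ₑ ≤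
        ENNReal.ofReal (1 / |t|) * (n θ : ℝ≥0∞) := by
    intro θ hθ
    have h := ray_bound ht hθ
    have e : ∀ r ∈ Ioi (0 : ℝ), (r, θ).1 • W.indicator
        (fun p => cexp (-(t * (p.1 ^ 2 + p.2 ^ 2) : ℝ) * I)) (polarCoord.symm (r, θ)) =
        {r | 0 < r ∧ (r * Real.cos θ, r * Real.sin θ) ∈ W}.indicator
          (fun r : ℝ => (r : ℂ) * cexp (-(t * r ^ 2 : ℝ) * I)) r := by
      intro r hr0
      by_cases hr : (r * Real.cos θ, r * Real.sin θ) ∈ W
      · rw [indicator_of_mem (show r ∈ {r | 0 < r ∧ (r * Real.cos θ, r * Real.sin θ) ∈ W} from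
            ⟨hr0, hr⟩),
          indicator_of_mem (show polarCoord.symm (r, θ) ∈ W from hr)]
        have e2 : (polarCoord.symm (r, θ)).1 ^ 2 + (polarCoord.symm (r, θ)).2 ^ 2 = r ^ 2 := by
          simp only [polarCoord_symm_apply]
          have := Real.sin_sq_add_cos_sq θ
          linear_combination r ^ 2 * this
        rw [e2, Complex.real_smul]
      · rw [indicator_of_notMem (show r ∉ {r | 0 < r ∧ (r * Real.cos θ, r * Real.sin θ) ∈ W} from
            fun h => hr h.2),
          indicator_of_notMem (show polarCoord.symm (r, θ) ∉ W from hr), smul_zero]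
    rw [setIntegral_congr_fun measurableSet_Ioi e]
    rw [← ofReal_norm, ← ENNReal.ofReal_natCast, ← ENNReal.ofReal_mul (by positivity)]
    refine ENNReal.ofReal_le_ofReal (h.trans (le_of_eq ?_))
    ring
  have hfin : ‖∫ θ in Ioo (-Real.pi) Real.pi, ∫ r in Ioi (0 : ℝ), (r, θ).1 • W.indicator
      (fun p => cexp (-(t * (p.1 ^ 2 + p.2 ^ 2) : ℝ) * I)) (polarCoord.symm (r, θ))‖ₑ ≤
      ENNReal.ofReal (2 * Real.pi * N / |t|) := by
    refine (enorm_integral_le_lintegral_enorm _).trans ?_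
    refine (lintegral_mono_ae (hW.mono fun θ hθ => hb θ hθ)).trans ?_
    rw [lintegral_const_mul' _ _ ENNReal.ofReal_ne_top]
    refine (mul_le_mul_right hn _).trans (le_of_eq ?_)
    rw [← ENNReal.ofReal_mul (by positivity)]
    congr 1
    ring
  rw [← ofReal_norm] at hfin
  exact (ENNReal.ofReal_le_ofReal_iff (by positivity)).1 hfin

end Pool.Agent.R247.LC
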