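import Pool.Agent.R247.LC.Gen2
import Pool.Agent.R247.LC.Line
import Pool.Agent.H153R4.Pl
set_option autoImplicit false

/-!
# The extension operator of the paraboloid in `ℝ^3` on sets of bounded line complexity
-/

namespace Pool.Agent.R247.LC

open MeasureTheory Set Filter Topology Complex
open scoped ENNReal RealInnerProductSpace FourierTransform

/-- the plane -/
abbrev E2 := EuclideanSpace ℝ (Fin 2)

/-- Every line meets `W` in a union of at most `N` intervals. -/
def LineComplexity {V : Type*} [AddCommGroup V] [Module ℝ V] (N : ℕ) (W : Set V) : Prop :=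
  ∀ c v : V, Intervals N {r : ℝ | c + r • v ∈ W}

/-- From every point, the rays meet `W` in unions of intervals, on average at most `N`. -/
def RayComplexity (N : ℝ) (W : Set E2) : Prop :=
  ∀ c : E2, ∃ n : ℝ → ℕ,
    (∫⁻ θ in Ioo (-Real.pi) Real.pi, (n θ : ℝ≥0∞) ≤ ENNReal.ofReal (2 * Real.pi * N)) ∧
    ∀ᵐ θ ∂(volume.restrict (Ioo (-Real.pi) Real.pi)),
      Intervals (n θ) {r : ℝ | 0 < r ∧ c + r • !₂[Real.cos θ, Real.sin θ] ∈ W}

theorem intervals_pos {N : ℕ} {S : Set ℝ} (hS : Intervals N S) :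
    Intervals N {r | 0 < r ∧ r ∈ S} := by
  obtain ⟨L, hL, rfl⟩ := hS
  refine ⟨fun i => Ioi 0 ∩ L i, fun i => (convex_Ioi 0).inter (hL i), ?_⟩
  rw [← inter_iUnion]
  rfl

theorem LineComplexity.ray {N : ℕ} {W : Set E2} (hW : LineComplexity N W) :
    RayComplexity N W := by
  intro c
  have hpi := Real.pi_pos
  refine ⟨fun _ => N, ?_, Eventually.of_forall fun θ => intervals_pos (hW c _)⟩
  rw [lintegral_const, Measure.restrict_apply_univ, Real.volume_Ioo, ← ENNReal.ofReal_natCast,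
    ← ENNReal.ofReal_mul (by positivity)]
  refine ENNReal.ofReal_le_ofReal (le_of_eq ?_)
  ring

/-- kernel of the extension operator of the paraboloid -/
noncomputable def kp (z : E2 × ℝ) (ξ : E2) : ℂ := cexp (-(⟪ξ, z.1⟫ + z.2 * ‖ξ‖ ^ 2 : ℝ) * I)

theorem kp_ker : Ker kp := by
  refine ⟨?_, ?_⟩
  · have : Continuous (Function.uncurry kp) := by
      unfold kp
      fun_prop
    exact this.stronglyMeasurable
  · intro z ξ
    unfold kp
    have e : -((⟪ξ, z.1⟫ + z.2 * ‖ξ‖ ^ 2 : ℝ) : ℂ) * I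
        = ((-(⟪ξ, z.1⟫ + z.2 * ‖ξ‖ ^ 2) : ℝ) : ℂ) * I := by push_cast; ring
    rw [e, Complex.norm_exp_ofReal_mul_I]

/-- the parametrisation of the plane by pairs -/
noncomputable def psi (p : ℝ × ℝ) : E2 := WithLp.toLp 2 ((MeasurableEquiv.finTwoArrow (α := ℝ)).symm p)

theorem psi_mp : MeasurePreserving psi volume volume :=
  (PiLp.volume_preserving_toLp (Fin 2)).comp (volume_preserving_finTwoArrow ℝ).symm

theorem psi_emb : MeasurableEmbedding psi := by
  have h : psi = (MeasurableEquiv.toLp 2 (Fin 2 → ℝ)) ∘ (MeasurableEquiv.finTwoArrow (α := ℝ)).symm := rfl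
  rw [h]
  exact ((MeasurableEquiv.toLp 2 (Fin 2 → ℝ)).measurableEmbedding).comp
    (MeasurableEquiv.finTwoArrow (α := ℝ)).symm.measurableEmbedding

theorem psi_zero (p : ℝ × ℝ) : psi p 0 = p.1 := rfl
theorem psi_one (p : ℝ × ℝ) : psi p 1 = p.2 := rfl

theorem psi_norm (p : ℝ × ℝ) : ‖psi p‖ ^ 2 = p.1 ^ 2 + p.2 ^ 2 := by
  rw [EuclideanSpace.norm_sq_eq, Fin.sum_univ_two, psi_zero, psi_one]
  simp

theorem psi_smul (r a b : ℝ) : psi (r * a, r * b) = r • psi (a, b) := by
  ext i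
  fin_cases i
  · exact rfl
  · exact rfl

/-- The dispersive bound for sets of bounded ray complexity. -/
theorem disp {N : ℝ} (hN : 0 ≤ N) {W : Set E2} (hW : RayComplexity N W) {t : ℝ} (ht : t ≠ 0)
    (x : E2) : ‖T kp volume (indc W) (x, t)‖ ≤ 2 * Real.pi * N / |t| := by
  set c : E2 := (-(2 * t)⁻¹ : ℝ) • x with hc
  obtain ⟨n, hn, hWn⟩ := hW c
  unfold T
  rw [← integral_add_left_eq_self _ c, ← psi_mp.integral_comp psi_emb]
  set W' : Set (ℝ × ℝ) := {p | c + psi p ∈ W} with hW'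
  have e : ∀ p : ℝ × ℝ, kp (x, t) (c + psi p) * indc W (c + psi p) =
      cexp ((t * ‖c‖ ^ 2 : ℝ) * I) *
        W'.indicator (fun p => cexp (-(t * (p.1 ^ 2 + p.2 ^ 2) : ℝ) * I)) p := by
    intro p
    by_cases hp : c + psi p ∈ W
    · rw [indicator_of_mem (show p ∈ W' from hp)]
      unfold indc
      rw [indicator_of_mem hp, mul_one]
      unfold kp
      rw [← Complex.exp_add]
      congr 1
      have h1 : ⟪c + psi p, x⟫ + t * ‖c + psi p‖ ^ 2 = t * (p.1 ^ 2 + p.2 ^ 2) - t * ‖c‖ ^ 2 := by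
        have hx : x = (-(2 * t) : ℝ) • c := by
          rw [hc, smul_smul]
          have : -(2 * t) * -(2 * t)⁻¹ = 1 := by field_simp
          rw [this, one_smul]
        rw [← psi_norm]
        conv_lhs => rw [hx]
        rw [inner_smul_right, inner_add_left, real_inner_self_eq_norm_sq, norm_add_sq_real,
          real_inner_comm]
        ring
      rw [h1]
      push_cast
      ring
    · rw [indicator_of_notMem (show p ∉ W' from hp)]
      unfold indc
      rw [indicator_of_notMem hp, mul_zero, mul_zero]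
  simp_rw [e]
  rw [integral_const_mul, norm_mul, Complex.norm_exp_ofReal_mul_I, one_mul]
  refine plane_bound ht hN hn (hWn.mono fun θ h => ?_)
  have e2 : {r : ℝ | 0 < r ∧ (r * Real.cos θ, r * Real.sin θ) ∈ W'} =
      {r : ℝ | 0 < r ∧ c + r • !₂[Real.cos θ, Real.sin θ] ∈ W} := by
    ext r
    simp only [hW', mem_ofPred_eq]
    rw [psi_smul]
    have : psi (Real.cos θ, Real.sin θ) = !₂[Real.cos θ, Real.sin θ] := by
      ext i
      fin_cases i
      · exact rfl
      · exact rfl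
    rw [this]
  rw [e2]
  exact h

/-- weak type bound at a fixed time -/
theorem fixed_t {W : Set E2} (hW : NullMeasurableSet W volume) (hfin : volume W ≠ ∞) (t : ℝ)
    {lam : ℝ} (hlam : 0 < lam) :
    volume {x : E2 | lam < ‖T kp volume (indc W) (x, t)‖} ≤
      ENNReal.ofReal ((2 * Real.pi) ^ 2 * lam ^ (-2 : ℝ)) * volume W := by
  set F : E2 → ℂ := fun ξ => cexp (-(t * ‖ξ‖ ^ 2 : ℝ) * I) * indc W ξ with hF
  have hn : ∀ ξ, ‖F ξ‖ = ‖indc W ξ‖ := by
    intro ξ
    rw [hF]
    simp only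
    have e : -((t * ‖ξ‖ ^ 2 : ℝ) : ℂ) * I = ((-(t * ‖ξ‖ ^ 2) : ℝ) : ℂ) * I := by push_cast; ring
    rw [norm_mul, e, Complex.norm_exp_ofReal_mul_I, one_mul]
  have hi : Integrable (indc W) (volume : Measure E2) := indc_int hW hfin
  have hFm : AEStronglyMeasurable F volume :=
    AEStronglyMeasurable.mul (Continuous.aestronglyMeasurable (by fun_prop)) hi.1
  have hFi : Integrable F := hi.mono hFm (Eventually.of_forall fun ξ => (hn ξ).le)
  have hFsq : ∀ ξ, ‖F ξ‖ₑ ^ 2 = W.indicator (fun _ => (1 : ℝ≥0∞)) ξ := by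
    intro ξ
    rw [← ofReal_norm, hn]
    unfold indc
    by_cases h : ξ ∈ W
    · simp [h]
    · simp [h]
  have hF2 : ∫⁻ ξ, ‖F ξ‖ₑ ^ 2 = volume W := by
    simp_rw [hFsq]
    rw [lintegral_indicator_const₀ hW, one_mul]
  have hFL2 : MemLp F 2 := by
    refine ⟨hFm, ?_⟩
    rw [eLpNorm_lt_top_iff_lintegral_rpow_enorm_lt_top (by norm_num) (by norm_num)]
    have : ∫⁻ a, ‖F a‖ₑ ^ (2 : ℝ≥0∞).toReal = ∫⁻ ξ, ‖F ξ‖ₑ ^ 2 := by
      congr 1
      funext ξ
      rw [← ENNReal.rpow_natCast]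
      norm_num
    rw [this, hF2]
    exact hfin.lt_top
  have hpl := Pool.Agent.H153R4.plancherel F hFi hFL2
  rw [hF2] at hpl
  have hpi := Real.pi_pos
  -- relation with the Fourier transform
  have hT : ∀ x : E2, T kp volume (indc W) (x, t) = 𝓕 F ((2 * Real.pi)⁻¹ • x) := by
    intro x
    rw [Real.fourier_eq']
    unfold T
    congr 1
    funext ξ
    rw [hF, smul_eq_mul, ← mul_assoc, ← Complex.exp_add]
    congr 1
    unfold kp
    congr 1
    rw [inner_smul_right]
    push_cast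
    have : (Real.pi : ℂ) ≠ 0 := by exact_mod_cast hpi.ne'
    field_simp
    ring
  have hset : {x : E2 | lam < ‖T kp volume (indc W) (x, t)‖} =
      ((2 * Real.pi)⁻¹ • · : E2 → E2) ⁻¹' {y | lam < ‖𝓕 F y‖} := by
    ext x
    simp only [mem_ofPred_eq, mem_preimage]
    rw [hT]
  rw [hset, Measure.addHaar_preimage_smul _ (by positivity)]
  have hfr : Module.finrank ℝ E2 = 2 := by simp
  rw [hfr]
  have hcont : Continuous (𝓕 F) :=
    VectorFourier.fourierIntegral_continuous (L := innerₗ E2) Real.continuous_fourierChar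
      continuous_inner hFi
  have h1 := mul_meas_ge_le_lintegral (μ := (volume : Measure E2))
    ((hcont.measurable.enorm).pow_const 2) (ENNReal.ofReal (lam ^ 2))
  have h2 : volume {y : E2 | lam < ‖𝓕 F y‖} ≤
      volume {y : E2 | ENNReal.ofReal (lam ^ 2) ≤ ‖𝓕 F y‖ₑ ^ 2} := by
    refine measure_mono fun y hy => ?_
    have hy' : lam < ‖𝓕 F y‖ := hy
    change ENNReal.ofReal (lam ^ 2) ≤ ‖𝓕 F y‖ₑ ^ 2
    rw [ENNReal.ofReal_pow hlam.le, ← ofReal_norm]
    exact pow_le_pow_left₀ (by positivity) (ENNReal.ofReal_le_ofReal hy'.le) 2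
  have h3 : volume {y : E2 | lam < ‖𝓕 F y‖} ≤ ENNReal.ofReal (lam ^ (-2 : ℝ)) * volume W := by
    have h4 : ENNReal.ofReal (lam ^ 2) * volume {y : E2 | lam < ‖𝓕 F y‖} ≤ volume W := by
      refine (mul_le_mul_right h2 _).trans (h1.trans hpl.le)
    have h5 : ENNReal.ofReal (lam ^ (-2 : ℝ)) * ENNReal.ofReal (lam ^ 2) = 1 := by
      rw [← ENNReal.ofReal_mul (by positivity), ← Real.rpow_natCast, ← Real.rpow_add hlam]
      norm_num
    calc volume {y : E2 | lam < ‖𝓕 F y‖}
        = ENNReal.ofReal (lam ^ (-2 : ℝ)) * (ENNReal.ofReal (lam ^ 2) *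
            volume {y : E2 | lam < ‖𝓕 F y‖}) := by rw [← mul_assoc, h5, one_mul]
      _ ≤ _ := mul_le_mul_right h4 _
  refine (mul_le_mul_right h3 _).trans (le_of_eq ?_)
  rw [← mul_assoc, ← ENNReal.ofReal_mul (by positivity)]
  congr 3
  rw [inv_pow, inv_inv, abs_of_pos (by positivity)]

/-- the constant of the endpoint inequality -/
noncomputable def CP : ℝ := 16 * Real.pi ^ 3

theorem T_cont {f : E2 → ℂ} (hf : Integrable f) :
    Measurable fun z : E2 × ℝ => ‖T kp volume f z‖ :=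
  (T_meas kp_ker hf.1).norm.measurable

/-- the endpoint weak type inequality -/
theorem weak_line {N : ℝ} (hN : 0 ≤ N) {W : Set E2} (hW : RayComplexity N W)
    (hWn : NullMeasurableSet W volume) (hfin : volume W ≠ ∞) {lam : ℝ} (hlam : 0 < lam) :
    volume {z : E2 × ℝ | lam < ‖T kp volume (indc W) z‖} ≤
      ENNReal.ofReal (CP * N * lam ^ (-3 : ℝ)) * volume W := by
  have hmeas : MeasurableSet {z : E2 × ℝ | lam < ‖T kp volume (indc W) z‖} :=
    measurableSet_lt measurable_const (T_cont (indc_int hWn hfin))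
  have hpi := Real.pi_pos
  rw [Measure.volume_eq_prod, Measure.prod_apply_symm hmeas]
  set R : ℝ := 2 * Real.pi * N / lam with hR
  have hae : ∀ t : ℝ, t ≠ 0 →
      volume ((fun x : E2 => (x, t)) ⁻¹' {z : E2 × ℝ | lam < ‖T kp volume (indc W) z‖})
      ≤ (Ioo (-R) R).indicator
        (fun _ => ENNReal.ofReal ((2 * Real.pi) ^ 2 * lam ^ (-2 : ℝ)) * volume W) t := by
    intro t ht
    by_cases htR : |t| < R
    · rw [indicator_of_mem (show t ∈ Ioo (-R) R from abs_lt.1 htR)]
      exact fixed_t hWn hfin t hlam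
    · have : ((fun x : E2 => (x, t)) ⁻¹' {z : E2 × ℝ | lam < ‖T kp volume (indc W) z‖}) = ∅ := by
        ext x
        simp only [mem_preimage, mem_ofPred_eq, mem_empty_iff_false, iff_false, not_lt]
        refine (disp hN hW ht x).trans ?_
        have h0 : 0 < |t| := abs_pos.2 ht
        rw [div_le_iff₀ h0]
        have h1 : 2 * Real.pi * N / lam ≤ |t| := not_lt.1 htR
        rw [div_le_iff₀ hlam] at h1
        linarith
      rw [this, measure_empty]
      exact zero_le
  have h0 : ∀ᵐ t : ℝ, t ≠ 0 := by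
    rw [ae_iff]
    simp
  refine (lintegral_mono_ae (h0.mono hae)).trans ?_
  rw [lintegral_indicator_const measurableSet_Ioo, Real.volume_Ioo]
  have hR0 : 0 ≤ R := by positivity
  rw [mul_right_comm, ← ENNReal.ofReal_mul (by positivity)]
  refine mul_le_mul_left (ENNReal.ofReal_le_ofReal (le_of_eq ?_)) _
  rw [hR, CP]
  have e3 : lam ^ (-3 : ℝ) = lam ^ (-2 : ℝ) * lam⁻¹ := by
    rw [← Real.rpow_neg_one lam, ← Real.rpow_add hlam]
    norm_num
  rw [e3]
  field_simp
  ring

end Pool.Agent.R247.LC
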