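import Pool.Agent.R247.LC.Para
set_option autoImplicit false

/-!
# The extension operator of the paraboloid in the coordinates of `ℝ^3`
-/

namespace Pool.Agent.R247.LC

open MeasureTheory Set Filter Topology Complex
open scoped ENNReal RealInnerProductSpace FourierTransform

/-- three dimensional space -/
abbrev E3 := EuclideanSpace ℝ (Fin 3)

/-- the parametrisation of the paraboloid -/
noncomputable def Phi (x : E2) : E3 := !₂[x 0, x 1, x 0 ^ 2 + x 1 ^ 2]

/-- the kernel on `ℝ^3` -/
noncomputable def k3 (z : E3) (x : E2) : ℂ := cexp (-(⟪Phi x, z⟫ : ℝ) * I)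

/-- `ℝ^3 = ℝ^2 × ℝ` -/
noncomputable def pr (z : E3) : E2 × ℝ := (!₂[z 0, z 1], z 2)

theorem pr_mp : MeasurePreserving pr volume volume := by
  have h1 : MeasurePreserving (WithLp.ofLp : E3 → (Fin 3 → ℝ)) volume volume :=
    PiLp.volume_preserving_ofLp (Fin 3)
  have h2 := volume_preserving_piFinSuccAbove (fun _ : Fin 3 => ℝ) (Fin.last 2)
  have h3 : MeasurePreserving (Prod.map (id : ℝ → ℝ) (WithLp.toLp 2 : (Fin 2 → ℝ) → E2))
      (volume.prod volume) (volume.prod volume) :=
    (MeasurePreserving.id volume).prod (PiLp.volume_preserving_toLp (Fin 2))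
  have h4 : MeasurePreserving (Prod.swap : ℝ × E2 → E2 × ℝ) (volume.prod volume)
      (volume.prod volume) := Measure.measurePreserving_swap
  have h5 := (h4.comp h3).comp (h2.comp h1)
  have e : pr = (Prod.swap ∘ Prod.map (id : ℝ → ℝ) (WithLp.toLp 2 : (Fin 2 → ℝ) → E2)) ∘
      (MeasurableEquiv.piFinSuccAbove (fun _ : Fin 3 => ℝ) (Fin.last 2)) ∘
      (WithLp.ofLp : E3 → (Fin 3 → ℝ)) := by
    funext z
    refine Prod.ext ?_ ?_
    · ext i
      fin_cases i <;> rfl
    · rfl
  rw [e]
  exact h5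

theorem k3_eq (z : E3) (x : E2) : k3 z x = kp (pr z) x := by
  unfold k3 kp
  congr 3
  rw [EuclideanSpace.norm_sq_eq, Fin.sum_univ_two, PiLp.inner_apply, PiLp.inner_apply,
    Fin.sum_univ_three, Fin.sum_univ_two]
  simp [Phi, pr]

theorem T3_eq (f : E2 → ℂ) (z : E3) : T k3 volume f z = T kp volume f (pr z) := by
  unfold T
  simp_rw [k3_eq]

theorem k3_ker : Ker k3 := by
  refine ⟨?_, fun z ξ => ?_⟩
  · have h : Function.uncurry k3 = fun p : E3 × E2 => Function.uncurry kp (pr p.1, p.2) := by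
      funext p
      exact k3_eq p.1 p.2
    rw [h]
    exact kp_ker.meas.comp_measurable ((pr_mp.measurable.comp measurable_fst).prodMk measurable_snd)
  · rw [k3_eq]
    exact kp_ker.norm _ _

theorem weak3 {N : ℝ} (hN : 0 ≤ N) {W : Set E2} (hW : RayComplexity N W)
    (hWn : NullMeasurableSet W volume) (hfin : volume W ≠ ∞) {lam : ℝ} (hlam : 0 < lam) :
    volume {z : E3 | lam < ‖T k3 volume (indc W) z‖} ≤
      ENNReal.ofReal (CP * N * lam ^ (-3 : ℝ)) * volume W := by
  have h1 : {z : E3 | lam < ‖T k3 volume (indc W) z‖} =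
      pr ⁻¹' {z : E2 × ℝ | lam < ‖T kp volume (indc W) z‖} := by
    ext z
    simp only [mem_ofPred_eq, mem_preimage]
    rw [T3_eq]
  have hmeas : MeasurableSet {z : E2 × ℝ | lam < ‖T kp volume (indc W) z‖} :=
    measurableSet_lt measurable_const (T_cont (indc_int hWn hfin))
  rw [h1, pr_mp.measure_preimage hmeas.nullMeasurableSet]
  exact weak_line hN hW hWn hfin hlam

end Pool.Agent.R247.LC
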