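import Pool.Agent.R247.LC.Para3
import Pool.Agent.R247.LC.Gen3
import Pool.Agent.Y183.TS.C
set_option autoImplicit false

/-!
# The Tomas-Stein bound of the level sets, in the normalisation of the problem
-/

namespace Pool.Agent.R247.LC

open MeasureTheory Set Filter Topology Complex
open scoped ENNReal RealInnerProductSpace

/-- the square -/
def Sq : Set E2 := {x | ∀ i, x i ∈ Icc (-1 : ℝ) 1}

/-- the frequency variables in the other normalisation -/
noncomputable def sc (z : E3) : ℝ × (Fin 2 → ℝ) :=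
  (-(2 * Real.pi)⁻¹ : ℝ) • ((z 2, ![z 0, z 1]) : ℝ × (Fin 2 → ℝ))

theorem k3_em (z : E3) (v : Fin 2 → ℝ) :
    k3 z (WithLp.toLp 2 v) = Pool.Agent.W771.MD.em (sc z).2 (sc z).1 v := by
  unfold k3 Pool.Agent.W771.MD.em Pool.Agent.W771.MD.qe sc
  rw [← Complex.exp_sum, Fin.sum_univ_two, PiLp.inner_apply, Fin.sum_univ_three]
  congr 1
  have hpi : (Real.pi : ℂ) ≠ 0 := by exact_mod_cast Real.pi_ne_zero
  simp [Phi]
  field_simp
  ring

theorem sc_measure (S : Set (ℝ × (Fin 2 → ℝ))) (hS : MeasurableSet S) :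
    volume (sc ⁻¹' S) = ENNReal.ofReal ((2 * Real.pi) ^ 3) * volume S := by
  have h1 : MeasurePreserving (WithLp.ofLp : E3 → (Fin 3 → ℝ)) volume volume :=
    PiLp.volume_preserving_ofLp (Fin 3)
  have h2 := volume_preserving_piFinSuccAbove (fun _ : Fin 3 => ℝ) (Fin.last 2)
  have h5 := h2.comp h1
  have e : sc = (fun w : ℝ × (Fin 2 → ℝ) => (-(2 * Real.pi)⁻¹ : ℝ) • w) ∘
      ((MeasurableEquiv.piFinSuccAbove (fun _ : Fin 3 => ℝ) (Fin.last 2)) ∘
      (WithLp.ofLp : E3 → (Fin 3 → ℝ))) := by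
    funext z
    unfold sc
    simp only [Function.comp_apply]
    congr 1
    refine Prod.ext rfl ?_
    funext i
    fin_cases i <;> rfl
  have hc : (-(2 * Real.pi)⁻¹ : ℝ) ≠ 0 := by
    have := Real.pi_pos
    simp [this.ne']
  rw [e, preimage_comp, h5.measure_preimage]
  · have h6 := Measure.addHaar_preimage_smul
      ((volume : Measure ℝ).prod (volume : Measure (Fin 2 → ℝ))) hc S
    have h7 : Module.finrank ℝ (ℝ × (Fin 2 → ℝ)) = 3 := by simp
    refine h6.trans ?_
    rw [h7]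
    congr 2
    rw [abs_inv, abs_pow, abs_neg, abs_inv, abs_of_pos (by positivity), inv_pow, inv_inv]
  · exact (measurable_const_smul _ hS).nullMeasurableSet

theorem Sq_eq : (WithLp.toLp 2 : (Fin 2 → ℝ) → E2) ⁻¹' Sq = Pool.Agent.Y183.LS.BA 1 2 := by
  ext v
  simp only [mem_preimage, Sq, mem_ofPred_eq, Pool.Agent.Y183.LS.BA, mem_Icc, Pi.le_def]
  exact forall_and

theorem Sq_meas : MeasurableSet Sq := by
  have : Sq = ⋂ i, {x : E2 | x i ∈ Icc (-1 : ℝ) 1} := by
    ext x; simp [Sq]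
  rw [this]
  refine MeasurableSet.iInter fun i => ?_
  have h : Measurable fun x : E2 => x i := by fun_prop
  exact h measurableSet_Icc

theorem Sq_fin : volume Sq ≠ ∞ := by
  have h := (PiLp.volume_preserving_toLp (Fin 2)).measure_preimage Sq_meas.nullMeasurableSet
  rw [← h, Sq_eq]
  exact Pool.Agent.Y183.PQ.BA1_fin

/-- the constant -/
noncomputable def CT : ℝ := (2 * Real.pi) ^ 3 * Pool.Agent.Y183.TS.cm 2

theorem CT_nonneg : 0 ≤ CT := by
  unfold CT Pool.Agent.Y183.TS.cm
  have := Real.pi_pos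
  positivity

theorem weak4 {W : Set E2} (hW : W ⊆ Sq) (hWn : NullMeasurableSet W volume) {lam : ℝ}
    (hlam : 0 < lam) :
    volume {z : E3 | lam < ‖T k3 volume (indc W) z‖} ≤
      ENNReal.ofReal (CT * lam ^ (-4 : ℝ)) * volume W ^ 2 := by
  have hfin : volume W ≠ ∞ := ne_top_of_le_ne_top Sq_fin (measure_mono hW)
  set V : ℝ := (volume W).toReal with hV
  have hV0 : 0 ≤ V := ENNReal.toReal_nonneg
  have hVe : volume W = ENNReal.ofReal V := (ENNReal.ofReal_toReal hfin).symm
  rcases eq_or_lt_of_le hV0 with hz | hVpos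
  · have hzero : {z : E3 | lam < ‖T k3 volume (indc W) z‖} = ∅ := by
      ext z
      simp only [mem_ofPred_eq, mem_empty_iff_false, iff_false, not_lt]
      have h2 := sup_bound k3_ker hWn z
      rw [← hV, ← hz] at h2
      linarith
    rw [hzero, measure_empty]
    exact zero_le
  obtain ⟨W', -, hW'm, hW'⟩ := hWn.exists_measurable_superset_ae_eq
  set H : (Fin 2 → ℝ) → ℂ := fun v => indc W' (WithLp.toLp 2 v) with hH
  have htoLp : Measurable (WithLp.toLp 2 : (Fin 2 → ℝ) → E2) :=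
    (PiLp.volume_preserving_toLp (Fin 2)).measurable
  have hind : Measurable (indc W') := measurable_const.indicator hW'm
  have hHm : Measurable H := hind.comp htoLp
  have hK : ∫⁻ v, ‖H v‖ₑ ^ 2 ≤ ENNReal.ofReal ((Real.sqrt V) ^ 2) := by
    rw [Real.sq_sqrt hV0, ← hVe]
    have e1 : ∀ v, ‖H v‖ₑ ^ 2 = (fun x : E2 => W'.indicator (fun _ => (1 : ℝ≥0∞)) x)
        (WithLp.toLp 2 v) := by
      intro v
      simp only [hH, indc]
      by_cases h : WithLp.toLp 2 v ∈ W'
      · rw [indicator_of_mem h, indicator_of_mem h]; simp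
      · rw [indicator_of_notMem h, indicator_of_notMem h]; simp
    simp_rw [e1]
    have h6 := (PiLp.volume_preserving_toLp (Fin 2)).lintegral_comp
      (f := fun x : E2 => W'.indicator (fun _ => (1 : ℝ≥0∞)) x)
      (measurable_const.indicator hW'm)
    refine (le_of_eq h6).trans ?_
    rw [lintegral_indicator_const hW'm, one_mul, measure_congr hW']
  have hF : ∀ z : E3, Pool.Agent.Y183.TS.F H (sc z) = T k3 volume (indc W) z := by
    intro z
    have h1 : T k3 volume (indc W) z = T k3 volume (indc (W' ∩ Sq)) z := by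
      refine T_ae_set ?_ z
      have h2 : (W' ∩ Sq : Set E2) =ᵐ[volume] (W ∩ Sq : Set E2) := hW'.inter (ae_eq_refl Sq)
      rw [inter_eq_self_of_subset_left hW] at h2
      exact h2.symm
    rw [h1]
    unfold T
    have h3 : ∀ x, k3 z x * indc (W' ∩ Sq) x = Sq.indicator (fun x => k3 z x * indc W' x) x := by
      intro x
      unfold indc
      by_cases hx : x ∈ Sq
      · rw [indicator_of_mem hx]
        congr 1
        by_cases hx' : x ∈ W'
        · rw [indicator_of_mem hx', indicator_of_mem (show x ∈ W' ∩ Sq from ⟨hx', hx⟩)]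
        · rw [indicator_of_notMem hx', indicator_of_notMem (fun h => hx' h.1)]
      · rw [indicator_of_notMem hx, indicator_of_notMem (fun h => hx h.2), mul_zero]
    simp_rw [h3]
    rw [integral_indicator Sq_meas]
    have h4 := (PiLp.volume_preserving_toLp (Fin 2)).setIntegral_preimage_emb
      (MeasurableEquiv.toLp 2 (Fin 2 → ℝ)).measurableEmbedding
      (fun x : E2 => k3 z x * indc W' x) Sq
    rw [← h4, Sq_eq]
    unfold Pool.Agent.Y183.TS.F
    refine setIntegral_congr_fun measurableSet_Icc fun v _ => ?_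
    simp only [hH]
    rw [k3_em, mul_comm]
  have h7 := Pool.Agent.Y183.TS.weak H hHm (Real.sqrt V) (Real.sqrt_pos.2 hVpos) hK (by norm_num)
    lam hlam
  have h8 : {z : E3 | lam < ‖T k3 volume (indc W) z‖} =
      sc ⁻¹' {z : ℝ × (Fin 2 → ℝ) | lam < ‖Pool.Agent.Y183.TS.F H z‖} := by
    ext z
    simp only [mem_ofPred_eq, mem_preimage]
    rw [hF]
  rw [h8, sc_measure _ (measurableSet_lt measurable_const
    (Pool.Agent.Y183.TS.F_meas H hHm).norm)]
  refine (mul_le_mul_right h7 _).trans (le_of_eq ?_)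
  have hcm : 0 ≤ Pool.Agent.Y183.TS.cm 2 := by
    unfold Pool.Agent.Y183.TS.cm
    positivity
  have hpi := Real.pi_pos
  rw [hVe, ← ENNReal.ofReal_pow hV0, ← ENNReal.ofReal_mul (by positivity),
    ← ENNReal.ofReal_mul (mul_nonneg CT_nonneg (by positivity))]
  congr 1
  have e5 : (2 * (((2 : ℕ) : ℝ) + 2) / ((2 : ℕ) : ℝ)) = ((4 : ℕ) : ℝ) := by norm_num
  have e6 : Real.sqrt V ^ 4 = V ^ 2 := by
    rw [show (4 : ℕ) = 2 * 2 by norm_num, pow_mul, Real.sq_sqrt hV0]
  have e7 : lam ^ (-4 : ℝ) = (lam ^ 4)⁻¹ := by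
    rw [Real.rpow_neg hlam.le]
    congr 1
    exact_mod_cast Real.rpow_natCast lam 4
  rw [e5, Real.rpow_natCast, div_pow, e6, e7]
  unfold CT
  ring

end Pool.Agent.R247.LC
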