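import Pool.Agent.R247.LC.Para
set_option autoImplicit false

/-!
# Superlevel sets of polynomials on convex sets have bounded line complexity
-/

namespace Pool.Agent.R247.LC

open MeasureTheory Set Filter Topology Polynomial

theorem intervals_inter {N : ℕ} {S K : Set ℝ} (hS : Intervals N S) (hK : Convex ℝ K) :
    Intervals N (K ∩ S) := by
  obtain ⟨L, hL, rfl⟩ := hS
  exact ⟨fun i => K ∩ L i, fun i => hK.inter (hL i), by rw [inter_iUnion]⟩

/-- the set where a real polynomial of degree at most `D` is positive is a union of `D + 1`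
intervals -/
theorem poly_intervals {D : ℕ} (p : ℝ[X]) (hp : p.natDegree ≤ D) :
    Intervals (D + 1) {r | 0 < p.eval r} := by
  classical
  by_cases hp0 : p = 0
  · refine ⟨fun _ => ∅, fun _ => convex_empty, ?_⟩
    rw [hp0]
    simp
  set Z : Finset ℝ := p.roots.toFinset with hZ
  have hZc : Z.card ≤ D :=
    (Multiset.toFinset_card_le _).trans ((Polynomial.card_roots' p).trans hp)
  set cnt : ℝ → ℕ := fun r => (Z.filter (· < r)).card with hcnt
  have hmono : ∀ {a b : ℝ}, a ≤ b → Z.filter (· < a) ⊆ Z.filter (· < b) := by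
    intro a b hab z hz
    rw [Finset.mem_filter] at hz ⊢
    exact ⟨hz.1, lt_of_lt_of_le hz.2 hab⟩
  have hcD : ∀ r, cnt r < D + 1 := fun r =>
    Nat.lt_succ_of_le ((Finset.card_filter_le _ _).trans hZc)
  refine ⟨fun k => {r | 0 < p.eval r ∧ cnt r = (k : ℕ)}, ?_, ?_⟩
  · intro k
    refine Set.OrdConnected.convex ⟨?_⟩
    intro a ha b hb r hr
    have hab : a ≤ b := hr.1.trans hr.2
    have e1 : Z.filter (· < a) = Z.filter (· < b) := by
      refine Finset.eq_of_subset_of_card_le (hmono hab) ?_
      change cnt b ≤ cnt a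
      rw [ha.2, hb.2]
    have hnr : ∀ x ∈ Icc a b, p.eval x ≠ 0 := by
      intro x hx h0
      have hxZ : x ∈ Z := by
        rw [hZ, Multiset.mem_toFinset, Polynomial.mem_roots hp0]
        exact h0
      rcases eq_or_lt_of_le hx.2 with h | h
      · rw [h] at h0
        exact hb.1.ne' h0
      · have h1 : x ∈ Z.filter (· < b) := Finset.mem_filter.2 ⟨hxZ, h⟩
        rw [← e1, Finset.mem_filter] at h1
        exact absurd h1.2 (not_lt.2 hx.1)
    refine ⟨?_, ?_⟩
    · by_contra hneg
      have hneg' : p.eval r ≤ 0 := not_lt.1 hneg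
      have hc : ContinuousOn (fun x => p.eval x) (Icc a r) := p.continuous.continuousOn
      have h2 := intermediate_value_Icc' hr.1 hc
      obtain ⟨x, hx, hx0⟩ := h2 ⟨hneg', ha.1.le⟩
      exact hnr x ⟨hx.1, hx.2.trans hr.2⟩ hx0
    · have h1 : cnt a ≤ cnt r := Finset.card_le_card (hmono hr.1)
      have h2 : cnt r ≤ cnt b := Finset.card_le_card (hmono hr.2)
      rw [ha.2] at h1
      rw [hb.2] at h2
      exact le_antisymm h2 h1
  · ext r
    simp only [mem_ofPred_eq, mem_iUnion]
    constructor
    · intro h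
      exact ⟨⟨cnt r, hcD r⟩, h, rfl⟩
    · rintro ⟨k, h, -⟩
      exact h

/-- the superlevel sets of a polynomial of degree at most `D` on a convex set -/
theorem poly_line {D : ℕ} (P : MvPolynomial (Fin 2) ℝ) (hP : P.totalDegree ≤ D) {U : Set E2}
    (hU : Convex ℝ U) (s : ℝ) :
    LineComplexity (D + 1) {x | x ∈ U ∧ s < MvPolynomial.eval (fun i => x i) P} := by
  intro c v
  set g : Fin 2 → ℝ[X] := fun i => C (c i) + C (v i) * X with hg
  set p : ℝ[X] := MvPolynomial.aeval g P - C s with hp
  have hdeg : p.natDegree ≤ D := by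
    have h1 : (MvPolynomial.aeval g P).natDegree ≤ D * 1 := by
      refine MvPolynomial.aeval_natDegree_le P hP g ?_
      intro i
      rw [hg]
      exact (Polynomial.natDegree_add_le _ _).trans (max_le (by simp)
        ((Polynomial.natDegree_C_mul_le _ _).trans (by simp)))
    rw [mul_one] at h1
    rw [hp]
    exact (Polynomial.natDegree_sub_le _ _).trans (max_le h1 (by simp))
  have hev : ∀ r : ℝ, p.eval r = MvPolynomial.eval (fun i => (c + r • v) i) P - s := by
    intro r
    rw [hp, Polynomial.eval_sub, Polynomial.eval_C]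
    congr 1
    have h1 : (MvPolynomial.aeval g P).eval r =
        (Polynomial.evalRingHom r) (MvPolynomial.aeval g P) := rfl
    rw [h1, MvPolynomial.aeval_def, MvPolynomial.eval₂_comp_left]
    have h2 : (Polynomial.evalRingHom r).comp (algebraMap ℝ ℝ[X]) = RingHom.id ℝ := by
      ext x
      simp
    rw [h2, MvPolynomial.eval₂_id]
    congr 1
    congr 1
    funext i
    simp only [hg, Function.comp_apply, Polynomial.coe_evalRingHom, Polynomial.eval_add,
      Polynomial.eval_C, Polynomial.eval_mul, Polynomial.eval_X, PiLp.add_apply,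
      PiLp.smul_apply, smul_eq_mul]
    ring
  have hK : Convex ℝ {r : ℝ | c + r • v ∈ U} := by
    have h1 : {r : ℝ | c + r • v ∈ U} = (AffineMap.lineMap c (c + v) : ℝ →ᵃ[ℝ] E2) ⁻¹' U := by
      ext r
      simp only [mem_ofPred_eq, mem_preimage, AffineMap.lineMap_apply]
      rw [vsub_eq_sub, add_sub_cancel_left, vadd_eq_add, add_comm]
    rw [h1]
    exact hU.affine_preimage _
  have h3 := intervals_inter (poly_intervals p hdeg) hK
  have h4 : {r : ℝ | c + r • v ∈ {x | x ∈ U ∧ s < MvPolynomial.eval (fun i => x i) P}} =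
      {r : ℝ | c + r • v ∈ U} ∩ {r | 0 < p.eval r} := by
    ext r
    simp only [mem_ofPred_eq, mem_inter_iff]
    rw [hev, sub_pos]
  rw [h4]
  exact h3

end Pool.Agent.R247.LC
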