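import Pool.Agent.R247.LC.Gen4
import Pool.Agent.R247.LC.Line
import Pool.Agent.H789R2.FR.Arch
import Pool.Agent.H789R2.FR.GB
set_option autoImplicit false

/-!
# The extension operator of the unit sphere of `ℝ^3` on sets whose meridian sections consist of
few arcs, on average
-/

namespace Pool.Agent.R247.LC.Sp

open MeasureTheory Set Filter Topology Complex Metric
open scoped ENNReal RealInnerProductSpace
open Pool.Agent.H789R2.FR (sg sc pt sg_inv exists_iso sg_eq_map measurable_pt)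

/-- three dimensional space -/
abbrev V3 := EuclideanSpace ℝ (Fin 3)
/-- the unit sphere -/
abbrev S2 := sphere (0 : V3) 1
/-- the surface measure -/
noncomputable abbrev mu : Measure S2 := (volume : Measure V3).toSphere

/-- On average over the meridians of any polar coordinate system, the meridians meet `W` in at
most `N` arcs. -/
def ArcCount (N : ℝ) (W : Set S2) : Prop :=
  ∀ L : V3 ≃ₗᵢ[ℝ] V3, ∃ n : ℝ → ℕ,
    (∫⁻ φ in Ioo (-Real.pi) Real.pi, (n φ : ℝ≥0∞) ≤ ENNReal.ofReal (2 * Real.pi * N)) ∧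
    ∀ᵐ φ ∂(volume.restrict (Ioo (-Real.pi) Real.pi)),
      Intervals (n φ) {c : ℝ | c ∈ Ioo (-1 : ℝ) 1 ∧ L (pt c φ) ∈ (Subtype.val '' W : Set V3)}

/-- the kernel -/
noncomputable def kS (z : V3) (x : S2) : ℂ := cexp (-(⟪(x : V3), z⟫ : ℝ) * I)

theorem kS_ker : Ker kS := by
  refine ⟨?_, ?_⟩
  · have : Continuous (Function.uncurry kS) := by
      unfold kS
      fun_prop
    exact this.stronglyMeasurable
  · intro z x
    unfold kS
    have e : -((⟪(x : V3), z⟫ : ℝ) : ℂ) * I = ((-(⟪(x : V3), z⟫) : ℝ) : ℂ) * I := by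
      push_cast; ring
    rw [e, Complex.norm_exp_ofReal_mul_I]

theorem emb : MeasurableEmbedding (Subtype.val : S2 → V3) :=
  MeasurableEmbedding.subtype_coe isClosed_sphere.measurableSet

theorem indc_val (W : Set S2) (x : S2) :
    indc (Subtype.val '' W : Set V3) (x : V3) = indc W x := by
  unfold indc
  by_cases hx : x ∈ W
  · rw [indicator_of_mem hx, indicator_of_mem (mem_image_of_mem _ hx)]
  · rw [indicator_of_notMem hx, indicator_of_notMem]
    rintro ⟨y, hy, hyx⟩
    exact hx (Subtype.val_injective hyx ▸ hy)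

theorem lift (W : Set S2) (z : V3) :
    T kS mu (indc W) z = Pool.Agent.H789R2.FR.T (indc (Subtype.val '' W : Set V3)) z := by
  unfold Pool.Agent.H789R2.FR.T sg T
  rw [emb.integral_map]
  refine integral_congr_ae (Eventually.of_forall fun x => ?_)
  simp only
  rw [indc_val, real_inner_comm]
  rfl

/-- the phase integral along a meridian -/
theorem mer_bound {ρ : ℝ} (hρ : 0 < ρ) {n : ℕ} {S : Set ℝ} (hS : Intervals n S)
    (hS1 : S ⊆ Ioo (-1 : ℝ) 1) :
    ‖∫ c in Ioo (-1 : ℝ) 1, S.indicator (fun c : ℝ => cexp (-(ρ * c : ℝ) * I)) c‖ ≤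
      2 * n / ρ := by
  have hρ' : (ρ : ℂ) ≠ 0 := by exact_mod_cast hρ.ne'
  set g : ℝ → ℂ := fun r => cexp (-(ρ * (r - 1) : ℝ) * I) with hg
  set G : ℝ → ℂ := fun r => (-(ρ * I))⁻¹ * cexp (-(ρ * (r - 1) : ℝ) * I) with hGdef
  have hG : ∀ x : ℝ, HasDerivAt G (g x) x := by
    intro x
    have h1 : HasDerivAt (fun r : ℝ => (-((ρ * (r - 1) : ℝ) : ℂ)) * I) (-((ρ : ℝ) : ℂ) * I) x := by
      have h2 : HasDerivAt (fun r : ℝ => ρ * (r - 1)) ρ x := by
        have := ((hasDerivAt_id x).sub_const 1).const_mul ρ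
        simpa using this
      exact (h2.ofReal_comp.neg).mul_const I
    have h3 := h1.cexp.const_mul ((-(ρ * I))⁻¹ : ℂ)
    refine h3.congr_deriv ?_
    have hI : I ≠ 0 := I_ne_zero
    rw [hg]
    simp only
    field_simp
  have hM : ∀ x : ℝ, ‖G x‖ ≤ 1 / ρ := by
    intro x
    rw [hGdef]
    simp only
    have e : -((ρ * (x - 1) : ℝ) : ℂ) * I = ((-(ρ * (x - 1)) : ℝ) : ℂ) * I := by push_cast; ring
    rw [norm_mul, e, Complex.norm_exp_ofReal_mul_I, mul_one, norm_inv, norm_neg, norm_mul,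
      Complex.norm_I, Complex.norm_real, mul_one, Real.norm_eq_abs, abs_of_pos hρ, one_div]
  set S' : Set ℝ := {r | r - 1 ∈ S} with hS'
  have hI' : Intervals n S' := by
    obtain ⟨K, hK, rfl⟩ := hS
    refine ⟨fun i => (fun r : ℝ => r - 1) ⁻¹' (K i), fun i => ?_, ?_⟩
    · refine Set.OrdConnected.convex ⟨?_⟩
      intro a ha b hb r hr
      exact (hK i).ordConnected.out ha hb ⟨by linarith [hr.1], by linarith [hr.2]⟩
    · rw [hS']
      ext r
      simp
  have hb := intervals_bound (M := 1 / ρ) (by positivity) hG (by rw [hg]; fun_prop) hM hI'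
  have e1 : ∫ c in Ioo (-1 : ℝ) 1, S.indicator (fun c : ℝ => cexp (-(ρ * c : ℝ) * I)) c =
      ∫ r in Ioi 0, S'.indicator g r := by
    have e2 : ∫ c in Ioo (-1 : ℝ) 1, S.indicator (fun c : ℝ => cexp (-(ρ * c : ℝ) * I)) c =
        ∫ c, S.indicator (fun c : ℝ => cexp (-(ρ * c : ℝ) * I)) c :=
      setIntegral_eq_integral_of_forall_compl_eq_zero fun c hc =>
        indicator_of_notMem (fun h => hc (hS1 h)) _
    have e3 : ∫ r in Ioi 0, S'.indicator g r = ∫ r, S'.indicator g r := by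
      refine setIntegral_eq_integral_of_forall_compl_eq_zero fun c hc => ?_
      refine indicator_of_notMem (fun h => hc ?_) _
      have h1 : c - 1 ∈ S := h
      have := (hS1 h1).1
      change 0 < c
      linarith
    rw [e2, e3, ← integral_sub_right_eq_self _ (1 : ℝ)]
    refine integral_congr_ae (Eventually.of_forall fun r => ?_)
    simp only
    by_cases h : r - 1 ∈ S
    · rw [indicator_of_mem h, indicator_of_mem (show r ∈ S' from h)]
    · rw [indicator_of_notMem h, indicator_of_notMem (show r ∉ S' from h)]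
  rw [e1]
  refine hb.trans (le_of_eq ?_)
  ring

/-- the pointwise bound -/
theorem point_bound {N : ℝ} (hN : 0 ≤ N) {W : Set S2} (hW : ArcCount N W)
    (hWn : NullMeasurableSet W mu) {z : V3} (hz : z ≠ 0) :
    ‖T kS mu (indc W) z‖ ≤ 4 * Real.pi * N / ‖z‖ := by
  have hpi := Real.pi_pos
  set ρ : ℝ := ‖z‖ with hρ
  have hρ0 : 0 < ρ := norm_pos_iff.2 hz
  set e3 : V3 := !₂[0, 0, 1] with he3
  have he3n : ‖e3‖ = 1 := by
    rw [EuclideanSpace.norm_eq, Fin.sum_univ_three]
    simp [he3]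
  have hzn : ‖ρ⁻¹ • z‖ = 1 := by
    rw [norm_smul, norm_inv, Real.norm_of_nonneg hρ0.le, ← hρ, inv_mul_cancel₀ hρ0.ne']
  obtain ⟨L, hL⟩ := exists_iso e3 (ρ⁻¹ • z) he3n hzn
  obtain ⟨n, hn, hWn'⟩ := hW L
  set F : V3 → ℂ := fun w => cexp (-(⟪z, w⟫ : ℝ) * I) * indc (Subtype.val '' W : Set V3) w with hF
  have hT : T kS mu (indc W) z = ∫ w, F w ∂(sg 3) := by
    rw [lift]
    rfl
  have hFm : AEStronglyMeasurable F (sg 3) := by
    refine AEStronglyMeasurable.mul (Continuous.aestronglyMeasurable (by fun_prop)) ?_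
    obtain ⟨W', -, hW'm, hW'⟩ := hWn.exists_measurable_superset_ae_eq
    have h1 : Measurable (indc (Subtype.val '' W' : Set V3)) :=
      measurable_const.indicator (emb.measurableSet_image.2 hW'm)
    refine h1.aestronglyMeasurable.congr ?_
    have h2 : indc (Subtype.val '' W' : Set V3) ∘ (Subtype.val : S2 → V3) =ᵐ[mu]
        indc (Subtype.val '' W : Set V3) ∘ (Subtype.val : S2 → V3) := by
      filter_upwards [hW'] with x hx
      have hx2 : x ∈ W' ↔ x ∈ W := iff_of_eq hx
      simp only [Function.comp_apply]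
      rw [indc_val, indc_val]
      unfold indc
      by_cases h : x ∈ W
      · rw [indicator_of_mem h, indicator_of_mem (hx2.2 h)]
      · rw [indicator_of_notMem h, indicator_of_notMem (fun h' => h (hx2.1 h'))]
    exact (emb.ae_map_iff).2 h2
  have h1 := (sg_inv (n := 3) L).integral_comp L.toHomeomorph.measurableEmbedding F
  rw [hT, ← h1]
  have hFLm : AEStronglyMeasurable (fun w => F (L w)) (sg 3) :=
    hFm.comp_measurePreserving (sg_inv (n := 3) L)
  rw [sg_eq_map] at hFLm ⊢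
  rw [integral_map measurable_pt.aemeasurable hFLm]
  have hint : Integrable (fun p : ℝ × ℝ => F (L (pt p.1 p.2)))
      ((volume.restrict (Ioo (-1 : ℝ) 1)).prod (volume.restrict (Ioo (-Real.pi) Real.pi))) := by
    refine Integrable.of_bound (C := 1) (hFLm.comp_measurable measurable_pt)
      (Eventually.of_forall fun p => ?_)
    rw [hF]
    simp only
    have e : ∀ w : V3, -((⟪z, w⟫ : ℝ) : ℂ) * I = ((-(⟪z, w⟫) : ℝ) : ℂ) * I := by
      intro w; push_cast; ring
    rw [norm_mul, e, Complex.norm_exp_ofReal_mul_I, one_mul]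
    unfold indc
    by_cases h : L (pt p.1 p.2) ∈ (Subtype.val '' W : Set V3)
    · rw [indicator_of_mem h]; simp
    · rw [indicator_of_notMem h]; simp
  rw [integral_prod_symm _ hint]
  have hb : ∀ φ : ℝ, Intervals (n φ) {c : ℝ | c ∈ Ioo (-1 : ℝ) 1 ∧
        L (pt c φ) ∈ (Subtype.val '' W : Set V3)} →
      ‖∫ c in Ioo (-1 : ℝ) 1, F (L (pt c φ))‖ₑ ≤ ENNReal.ofReal (2 / ρ) * (n φ : ℝ≥0∞) := by
    intro φ hφ
    have h := mer_bound hρ0 hφ (fun c hc => hc.1)
    have e : ∀ c ∈ Ioo (-1 : ℝ) 1, F (L (pt c φ)) =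
        {c : ℝ | c ∈ Ioo (-1 : ℝ) 1 ∧ L (pt c φ) ∈ (Subtype.val '' W : Set V3)}.indicator
          (fun c : ℝ => cexp (-(ρ * c : ℝ) * I)) c := by
      intro c hc
      rw [hF]
      simp only
      unfold indc
      by_cases hr : L (pt c φ) ∈ (Subtype.val '' W : Set V3)
      · rw [indicator_of_mem (show c ∈ {c : ℝ | c ∈ Ioo (-1 : ℝ) 1 ∧
            L (pt c φ) ∈ (Subtype.val '' W : Set V3)} from ⟨hc, hr⟩), indicator_of_mem hr, mul_one]
        congr 3
        have hzL : z = ρ • L e3 := by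
          rw [hL, smul_smul, mul_inv_cancel₀ hρ0.ne', one_smul]
        rw [hzL, inner_smul_left, L.inner_map_map]
        have : ⟪e3, pt c φ⟫ = c := by
          rw [PiLp.inner_apply, Fin.sum_univ_three]
          simp [he3, pt]
        rw [this]
        simp
      · rw [indicator_of_notMem (show c ∉ {c : ℝ | c ∈ Ioo (-1 : ℝ) 1 ∧
            L (pt c φ) ∈ (Subtype.val '' W : Set V3)} from fun h => hr h.2),
          indicator_of_notMem hr, mul_zero]
    rw [setIntegral_congr_fun measurableSet_Ioo e]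
    rw [← ofReal_norm, ← ENNReal.ofReal_natCast, ← ENNReal.ofReal_mul (by positivity)]
    refine ENNReal.ofReal_le_ofReal (h.trans (le_of_eq ?_))
    ring
  have hfin : ‖∫ φ in Ioo (-Real.pi) Real.pi, ∫ c in Ioo (-1 : ℝ) 1, F (L (pt c φ))‖ₑ ≤
      ENNReal.ofReal (4 * Real.pi * N / ρ) := by
    refine (enorm_integral_le_lintegral_enorm _).trans ?_
    refine (lintegral_mono_ae (hWn'.mono fun φ hφ => hb φ hφ)).trans ?_
    rw [lintegral_const_mul' _ _ ENNReal.ofReal_ne_top]
    refine (mul_le_mul_right hn _).trans (le_of_eq ?_)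
    rw [← ENNReal.ofReal_mul (by positivity)]
    congr 1
    ring
  rw [← ofReal_norm] at hfin
  exact (ENNReal.ofReal_le_ofReal_iff (by positivity)).1 hfin

end Pool.Agent.R247.LC.Sp
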