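import Pool.Agent.R247.LC.Sph1
import Pool.Agent.H789R2.FR.Weak
set_option autoImplicit false

/-!
# The two weak type bounds for the sphere
-/

namespace Pool.Agent.R247.LC.Sp

open MeasureTheory Set Filter Topology Complex Metric
open scoped ENNReal RealInnerProductSpace
open Pool.Agent.H789R2.FR (sg sc pt sg_inv exists_iso sg_eq_map measurable_pt)

theorem meas_ball {N lam : ℝ} (hN : 0 < N) (hlam : 0 < lam) {W : Set S2} (hW : ArcCount N W)
    (hWn : NullMeasurableSet W mu) :
    {z : V3 | lam < ‖T kS mu (indc W) z‖} ⊆ closedBall 0 (4 * Real.pi * N / lam) := by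
  intro z hz
  have hz' : lam < ‖T kS mu (indc W) z‖ := hz
  rw [mem_closedBall_zero_iff]
  have hpi := Real.pi_pos
  by_cases h0 : z = 0
  · rw [h0, norm_zero]; positivity
  have h1 := point_bound hN.le hW hWn h0
  have hz0 : 0 < ‖z‖ := norm_pos_iff.2 h0
  rw [le_div_iff₀ hz0] at h1
  rw [le_div_iff₀ hlam]
  nlinarith

theorem sq_int {W : Set S2} (hW : MeasurableSet W) :
    ∫ w, ‖indc (Subtype.val '' W : Set V3) w‖ ^ 2 ∂(sg 3) = (mu W).toReal := by
  have e : ∀ w, ‖indc (Subtype.val '' W : Set V3) w‖ ^ 2 =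
      (Subtype.val '' W : Set V3).indicator (fun _ => (1 : ℝ)) w := by
    intro w
    unfold indc
    by_cases h : w ∈ (Subtype.val '' W : Set V3)
    · rw [indicator_of_mem h, indicator_of_mem h]; simp
    · rw [indicator_of_notMem h, indicator_of_notMem h]; simp
  simp_rw [e]
  rw [integral_indicator_const _ (emb.measurableSet_image.2 hW), smul_eq_mul, mul_one,
    Measure.real]
  unfold sg
  rw [emb.map_apply, preimage_image_eq _ Subtype.val_injective]

theorem weak_sph : ∃ K0 K1 : ℝ, 0 ≤ K0 ∧ 0 ≤ K1 ∧ ∀ N : ℝ, 0 < N → ∀ W : Set S2, ArcCount N W →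
    NullMeasurableSet W mu → ∀ lam : ℝ, 0 < lam →
    volume {z : V3 | lam < ‖T kS mu (indc W) z‖} ≤
      ENNReal.ofReal (K0 * N * lam ^ (-3 : ℝ)) * mu W ∧
    volume {z : V3 | lam < ‖T kS mu (indc W) z‖} ≤
      ENNReal.ofReal (K1 * lam ^ (-4 : ℝ)) * mu W ^ 2 := by
  obtain ⟨C, hC, H2⟩ := Pool.Agent.H789R2.FR.L2_bound 3 (by norm_num)
  obtain ⟨D, hD, H4⟩ := Pool.Agent.H789R2.FR.weak 3 (by norm_num)
  have hpi := Real.pi_pos
  refine ⟨Real.exp 1 * C * (4 * Real.pi), D, by positivity, hD.le, ?_⟩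
  intro N hN W hW hWn lam hlam
  obtain ⟨W', -, hW'm, hW'⟩ := hWn.exists_measurable_superset_ae_eq
  set g : V3 → ℂ := indc (Subtype.val '' W' : Set V3) with hg
  have hgm : Measurable g := measurable_const.indicator (emb.measurableSet_image.2 hW'm)
  have hgb : ∃ M : ℝ, ∀ x, ‖g x‖ ≤ M := by
    refine ⟨1, fun x => ?_⟩
    rw [hg]
    unfold indc
    by_cases h : x ∈ (Subtype.val '' W' : Set V3)
    · rw [indicator_of_mem h]; simp
    · rw [indicator_of_notMem h]; simp
  have hT : ∀ z, T kS mu (indc W) z = Pool.Agent.H789R2.FR.T g z := by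
    intro z
    rw [← T_ae_set hW' z, lift]
  set A : Set V3 := {z : V3 | lam < ‖T kS mu (indc W) z‖} with hA
  have hAb := meas_ball hN hlam hW hWn
  rw [← hA] at hAb
  have hWfin : mu W ≠ ∞ := measure_ne_top _ _
  have hTm : Measurable fun z => ‖T kS mu (indc W) z‖ :=
    (T_meas kS_ker (indc_int hWn hWfin).1).norm.measurable
  have hAm : MeasurableSet A := measurableSet_lt measurable_const hTm
  set R : ℝ := 4 * Real.pi * N / lam with hR
  have hR0 : 0 < R := by positivity
  set V : ℝ := (mu W).toReal with hV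
  have hV0 : 0 ≤ V := ENNReal.toReal_nonneg
  have hVe : mu W = ENNReal.ofReal V := (ENNReal.ofReal_toReal hWfin).symm
  have hsq : ∫ w, ‖g w‖ ^ 2 ∂(sg 3) = V := by
    rw [hg, sq_int hW'm, hV, measure_congr hW']
  have hAfin : volume A ≠ ∞ := ne_top_of_le_ne_top measure_closedBall_lt_top.ne (measure_mono hAb)
  have hAe : volume A = ENNReal.ofReal (volume.real A) := (ENNReal.ofReal_toReal hAfin).symm
  have hsup : ∀ z, ‖T kS mu (indc W) z‖ ≤ V := fun z => sup_bound kS_ker hWn z
  have h3 : volume.real A ≤ Real.exp 1 * C * (4 * Real.pi) * N * lam ^ (-3 : ℝ) * V := by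
    have h1 := H2 g hgm hgb R hR0 0
    rw [hsq] at h1
    set w : V3 → ℝ := fun x => Real.exp (-‖x - 0‖ ^ 2 / R ^ 2) *
      ‖Pool.Agent.H789R2.FR.T g x‖ ^ 2 with hw
    have hwT : w = fun x => Real.exp (-‖x - 0‖ ^ 2 / R ^ 2) * ‖T kS mu (indc W) x‖ ^ 2 := by
      funext x
      rw [hw]
      simp only
      rw [hT]
    have hgauss : Integrable fun x : V3 => Real.exp (-‖x - 0‖ ^ 2 / R ^ 2) := by
      have := Pool.Agent.H789R2.FR.L2.integrable_W (n := 3) hR0
      simpa [Pool.Agent.H789R2.FR.L2.W] using! this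
    have hwi : Integrable w := by
      rw [hwT]
      refine Integrable.mono' (hgauss.mul_const (V ^ 2)) ?_ (Eventually.of_forall fun x => ?_)
      · exact hgauss.1.mul (hTm.pow_const 2).aestronglyMeasurable
      · rw [Real.norm_of_nonneg (by positivity)]
        exact mul_le_mul_of_nonneg_left (pow_le_pow_left₀ (norm_nonneg _) (hsup x) 2)
          (Real.exp_pos _).le
    have hw0 : ∀ x, 0 ≤ w x := fun x => by rw [hw]; positivity
    have h2 : ∫ x in A, Real.exp (-1) * lam ^ 2 ≤ ∫ x in A, w x := by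
      refine setIntegral_mono_on (integrableOn_const hAfin) hwi.integrableOn hAm fun x hx => ?_
      rw [hwT]
      simp only
      have hx1 : ‖x‖ ≤ R := mem_closedBall_zero_iff.1 (hAb hx)
      have hx2 : lam < ‖T kS mu (indc W) x‖ := hx
      refine mul_le_mul (Real.exp_le_exp.2 ?_) (pow_le_pow_left₀ hlam.le hx2.le 2) (by positivity)
        (Real.exp_pos _).le
      rw [sub_zero, neg_div, neg_le_neg_iff, div_le_one (by positivity)]
      exact pow_le_pow_left₀ (norm_nonneg _) hx1 2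
    have h4 : ∫ x in A, w x ≤ ∫ x, w x :=
      setIntegral_le_integral hwi (Eventually.of_forall hw0)
    have h5 : ∫ x in A, Real.exp (-1) * lam ^ 2 = volume.real A * (Real.exp (-1) * lam ^ 2) := by
      rw [setIntegral_const, smul_eq_mul]
    rw [h5] at h2
    have h6 : volume.real A * (Real.exp (-1) * lam ^ 2) ≤ C * R * V := h2.trans (h4.trans h1)
    have h7 : volume.real A = Real.exp 1 * lam ^ (-2 : ℝ) *
        (volume.real A * (Real.exp (-1) * lam ^ 2)) := by
      have e1 : Real.exp 1 * Real.exp (-1) = 1 := by rw [← Real.exp_add]; simp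
      have e2 : lam ^ (-2 : ℝ) * lam ^ 2 = 1 := by
        rw [← Real.rpow_natCast, ← Real.rpow_add hlam]; norm_num
      calc volume.real A = volume.real A * (Real.exp 1 * Real.exp (-1)) *
            (lam ^ (-2 : ℝ) * lam ^ 2) := by rw [e1, e2]; ring
        _ = _ := by ring
    rw [h7]
    refine (mul_le_mul_of_nonneg_left h6 (by positivity)).trans (le_of_eq ?_)
    have e3 : lam ^ (-3 : ℝ) = lam ^ (-2 : ℝ) * lam⁻¹ := by
      rw [← Real.rpow_neg_one lam, ← Real.rpow_add hlam]; norm_num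
    rw [e3, hR]
    field_simp
  have h4 : volume.real A ≤ D * lam ^ (-4 : ℝ) * V ^ 2 := by
    have h1 := H4 g hgm hgb lam hlam A hAm (isBounded_closedBall.subset hAb) (fun x hx => by
      rw [← hT]
      exact (show lam < ‖T kS mu (indc W) x‖ from hx).le)
    rw [hsq] at h1
    refine h1.trans (le_of_eq ?_)
    have e1 : (((3 : ℕ) : ℝ) + 1) / (((3 : ℕ) : ℝ) - 1) = ((2 : ℕ) : ℝ) := by norm_num
    have e2 : lam ^ (-4 : ℝ) = (lam ^ 4)⁻¹ := by
      rw [Real.rpow_neg hlam.le]
      congr 1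
      exact_mod_cast Real.rpow_natCast lam 4
    rw [e1, Real.rpow_natCast, e2]
    field_simp
  refine ⟨?_, ?_⟩
  · rw [hAe, hVe, ← ENNReal.ofReal_mul (by positivity)]
    exact ENNReal.ofReal_le_ofReal h3
  · rw [hAe, hVe, ← ENNReal.ofReal_pow hV0, ← ENNReal.ofReal_mul (by positivity)]
    exact ENNReal.ofReal_le_ofReal h4

/-- the kernel in the normalisation of the problem -/
noncomputable def kS2 (z : V3) (x : S2) : ℂ := cexp (-(2 * Real.pi * ⟪(x : V3), z⟫ : ℝ) * I)

theorem kS2_eq (z : V3) (x : S2) : kS2 z x = kS ((2 * Real.pi) • z) x := by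
  unfold kS2 kS
  rw [inner_smul_right]

theorem kS2_ker : Ker kS2 := by
  refine ⟨?_, ?_⟩
  · have : Continuous (Function.uncurry kS2) := by
      unfold kS2
      fun_prop
    exact this.stronglyMeasurable
  · intro z x
    rw [kS2_eq]
    exact kS_ker.norm _ _

theorem weak2_sph : ∃ K0 K1 : ℝ, 0 ≤ K0 ∧ 0 ≤ K1 ∧ ∀ N : ℝ, 0 < N →
    Weak2 kS2 mu (volume : Measure V3) K0 K1 N {W | ArcCount N W} := by
  obtain ⟨K0, K1, hK0, hK1, H⟩ := weak_sph
  refine ⟨K0, K1, hK0, hK1, fun N hN A hA hAn _ lam hlam => ?_⟩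
  obtain ⟨h3, h4⟩ := H N hN A hA hAn lam hlam
  have hpi := Real.pi_gt_three
  have e : {z : V3 | lam < ‖T kS2 mu (indc A) z‖} =
      ((2 * Real.pi) • · : V3 → V3) ⁻¹' {z : V3 | lam < ‖T kS mu (indc A) z‖} := by
    ext z
    simp only [mem_ofPred_eq, mem_preimage]
    unfold T
    simp_rw [kS2_eq]
  have hle : volume {z : V3 | lam < ‖T kS2 mu (indc A) z‖} ≤
      volume {z : V3 | lam < ‖T kS mu (indc A) z‖} := by
    rw [e, Measure.addHaar_preimage_smul _ (by positivity)]
    have h1 : ENNReal.ofReal |((2 * Real.pi) ^ Module.finrank ℝ V3)⁻¹| ≤ 1 := by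
      rw [ENNReal.ofReal_le_one, abs_inv, abs_of_pos (by positivity)]
      refine inv_le_one_of_one_le₀ (one_le_pow₀ (by linarith))
    calc _ ≤ 1 * volume {z : V3 | lam < ‖T kS mu (indc A) z‖} := mul_le_mul_left h1 _
      _ = _ := one_mul _
  exact ⟨hle.trans h3, hle.trans h4⟩

end Pool.Agent.R247.LC.Sp
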