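import Pool.Agent.R247.LC.Sph1
import Pool.Agent.R247.LC.Poly
set_option autoImplicit false

/-!
# Polynomials on the sphere
-/

namespace Pool.Agent.R247.LC.Sp

open MeasureTheory Set Filter Topology Metric Polynomial
open scoped ENNReal RealInnerProductSpace
open Pool.Agent.H789R2.FR (sg sc pt sg_inv exists_iso sg_eq_map measurable_pt)

theorem homog {D : ℕ} (P : MvPolynomial (Fin 3) ℝ) (hP : P.totalDegree ≤ D) (l : Fin 3 → ℝ[X])
    (w : ℝ[X]) (hl : ∀ i, (l i).natDegree ≤ 2) (hw : w.natDegree ≤ 2) :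
    ∃ Q : ℝ[X], Q.natDegree ≤ 2 * D ∧ ∀ u : ℝ, w.eval u ≠ 0 →
      Q.eval u = w.eval u ^ D * MvPolynomial.eval (fun i => (l i).eval u / w.eval u) P := by
  refine ⟨∑ m ∈ P.support, C (MvPolynomial.coeff m P) * (∏ i, l i ^ m i) *
    w ^ (D - ∑ i, m i), ?_, ?_⟩
  · refine Polynomial.natDegree_sum_le_of_forall_le _ _ fun m hm => ?_
    have hm1 : ∑ i, m i ≤ D := by
      have h1 := MvPolynomial.le_totalDegree hm
      rw [Finsupp.sum_fintype _ _ (fun _ => rfl)] at h1
      exact h1.trans hP
    have h2 : (C (MvPolynomial.coeff m P) * ∏ i, l i ^ m i).natDegree ≤ ∑ i, 2 * m i := by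
      refine (Polynomial.natDegree_C_mul_le _ _).trans ?_
      refine (Polynomial.natDegree_prod_le _ _).trans (Finset.sum_le_sum fun i _ => ?_)
      refine (Polynomial.natDegree_pow_le).trans ?_
      rw [mul_comm]
      exact Nat.mul_le_mul_right _ (hl i)
    have h3 : (w ^ (D - ∑ i, m i)).natDegree ≤ 2 * (D - ∑ i, m i) := by
      refine (Polynomial.natDegree_pow_le).trans ?_
      rw [mul_comm]
      exact Nat.mul_le_mul_right _ hw
    refine (Polynomial.natDegree_mul_le).trans ((add_le_add h2 h3).trans ?_)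
    rw [← Finset.mul_sum]
    omega
  · intro u hu
    rw [Polynomial.eval_finsetSum, MvPolynomial.eval_eq', Finset.mul_sum]
    refine Finset.sum_congr rfl fun m hm => ?_
    have hm1 : ∑ i, m i ≤ D := by
      have h1 := MvPolynomial.le_totalDegree hm
      rw [Finsupp.sum_fintype _ _ (fun _ => rfl)] at h1
      exact h1.trans hP
    rw [Polynomial.eval_mul, Polynomial.eval_mul, Polynomial.eval_C, Polynomial.eval_prod,
      Polynomial.eval_pow]
    simp_rw [Polynomial.eval_pow, div_pow]
    rw [Finset.prod_div_distrib, Finset.prod_pow_eq_pow_sum]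
    have h2 : w.eval u ^ D = w.eval u ^ (D - ∑ i, m i) * w.eval u ^ (∑ i, m i) := by
      rw [← pow_add, Nat.sub_add_cancel hm1]
    rw [h2]
    have h3 : w.eval u ^ (∑ i, m i) ≠ 0 := pow_ne_zero _ hu
    field_simp

theorem intervals_image {n : ℕ} {S : Set ℝ} (hS : Intervals n S) {F : ℝ → ℝ}
    (hF : Continuous F) : Intervals n (F '' S) := by
  obtain ⟨K, hK, rfl⟩ := hS
  refine ⟨fun i => F '' K i, fun i => ?_, by rw [image_iUnion]⟩
  have h1 : IsPreconnected (K i) := (hK i).isPreconnected
  exact (h1.image F hF.continuousOn).ordConnected.convex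

/-- the superlevel sets on the sphere of a polynomial of degree at most `D` -/
theorem sph_poly {D : ℕ} (P : MvPolynomial (Fin 3) ℝ) (hP : P.totalDegree ≤ D) (s : ℝ) :
    ArcCount (2 * D + 1) {x : S2 | s < MvPolynomial.eval (fun i => (x : V3) i) P} := by
  have hpi := Real.pi_pos
  intro L
  refine ⟨fun _ => 2 * D + 1, ?_, Eventually.of_forall fun φ => ?_⟩
  · rw [lintegral_const, Measure.restrict_apply_univ, Real.volume_Ioo, ← ENNReal.ofReal_natCast,
      ← ENNReal.ofReal_mul (by positivity)]
    refine ENNReal.ofReal_le_ofReal (le_of_eq ?_)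
    push_cast
    ring
  -- the rational parametrisation of the meridian
  set e1 : V3 := !₂[Real.cos φ, Real.sin φ, 0] with he1
  set e2 : V3 := !₂[0, 0, 1] with he2
  set l : Fin 3 → ℝ[X] := fun i => C (2 * (L e1) i) * X + C ((L e2) i) * (1 - X ^ 2) with hl
  set w : ℝ[X] := 1 + X ^ 2 with hw
  have hwe : ∀ u : ℝ, w.eval u = 1 + u ^ 2 := by intro u; simp [hw]
  have hw0 : ∀ u : ℝ, w.eval u ≠ 0 := by intro u; rw [hwe]; positivity
  have hwd : w.natDegree ≤ 2 := by
    rw [hw]
    exact (Polynomial.natDegree_add_le _ _).trans (max_le (by simp) (by simp))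
  have hld : ∀ i, (l i).natDegree ≤ 2 := by
    intro i
    rw [hl]
    refine (Polynomial.natDegree_add_le _ _).trans (max_le ?_ ?_)
    · refine (Polynomial.natDegree_C_mul_le _ _).trans (by simp)
    · refine (Polynomial.natDegree_C_mul_le _ _).trans ?_
      exact (Polynomial.natDegree_sub_le _ _).trans (max_le (by simp) (by simp))
  obtain ⟨Q, hQd, hQ⟩ := homog P hP l w hld hwd
  set Q' : ℝ[X] := Q - C s * w ^ D with hQ'
  have hQ'd : Q'.natDegree ≤ 2 * D := by
    refine (Polynomial.natDegree_sub_le _ _).trans (max_le hQd ?_)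
    refine (Polynomial.natDegree_C_mul_le _ _).trans ((Polynomial.natDegree_pow_le).trans ?_)
    rw [mul_comm]
    exact Nat.mul_le_mul_right _ hwd
  have hQ'e : ∀ u : ℝ, 0 < Q'.eval u ↔
      s < MvPolynomial.eval (fun i => (l i).eval u / w.eval u) P := by
    intro u
    have h1 : 0 < w.eval u := by rw [hwe]; positivity
    rw [hQ', Polynomial.eval_sub, hQ u (hw0 u), Polynomial.eval_mul, Polynomial.eval_C,
      Polynomial.eval_pow, mul_comm s, ← mul_sub]
    rw [mul_pos_iff_of_pos_left (by positivity), sub_pos]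
  have hI := intervals_pos (poly_intervals Q' hQ'd)
  set F : ℝ → ℝ := fun u => (1 - u ^ 2) / (1 + u ^ 2) with hF
  have hFc : Continuous F := by
    rw [hF]
    refine Continuous.div (by fun_prop) (by fun_prop) fun u => by positivity
  have h2 := intervals_image hI hFc
  -- the point of the meridian
  have hpt : ∀ u : ℝ, 0 < u → F u ∈ Ioo (-1 : ℝ) 1 ∧
      ∀ i, (L (pt (F u) φ)) i = (l i).eval u / w.eval u := by
    intro u hu
    have hu2 : 0 < 1 + u ^ 2 := by positivity
    refine ⟨⟨?_, ?_⟩, fun i => ?_⟩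
    · rw [hF]
      simp only
      rw [lt_div_iff₀ hu2]
      linarith
    · rw [hF]
      simp only
      rw [div_lt_one hu2]
      nlinarith
    · have hs : Real.sqrt (1 - F u ^ 2) = 2 * u / (1 + u ^ 2) := by
        have : 1 - F u ^ 2 = (2 * u / (1 + u ^ 2)) ^ 2 := by
          rw [hF]
          field_simp
          ring
        rw [this, Real.sqrt_sq (by positivity)]
      have hp : pt (F u) φ = (2 * u / (1 + u ^ 2)) • e1 + F u • e2 := by
        unfold pt sc
        rw [hs]
        ext j
        fin_cases j <;> simp [he1, he2]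
      rw [hp, map_add, map_smul, map_smul]
      simp only [PiLp.add_apply, PiLp.smul_apply, smul_eq_mul, hl, hwe, hF, Polynomial.eval_add,
        Polynomial.eval_mul, Polynomial.eval_C, Polynomial.eval_X, Polynomial.eval_sub,
        Polynomial.eval_one, Polynomial.eval_pow]
      field_simp
  have hset : {c : ℝ | c ∈ Ioo (-1 : ℝ) 1 ∧ L (pt c φ) ∈
      (Subtype.val '' {x : S2 | s < MvPolynomial.eval (fun i => (x : V3) i) P} : Set V3)} =
      F '' {r | 0 < r ∧ r ∈ {r | 0 < Q'.eval r}} := by
    ext c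
    constructor
    · rintro ⟨hc, x, hx, hxc⟩
      set u : ℝ := Real.sqrt ((1 - c) / (1 + c)) with hu
      have hc1 : 0 < 1 + c := by linarith [hc.1]
      have hc2 : 0 < 1 - c := by linarith [hc.2]
      have hu0 : 0 < u := Real.sqrt_pos.2 (div_pos hc2 hc1)
      have hu2 : u ^ 2 = (1 - c) / (1 + c) := Real.sq_sqrt (div_pos hc2 hc1).le
      have hFu : F u = c := by
        rw [hF]
        simp only
        rw [hu2]
        field_simp
        ring
      refine ⟨u, ⟨hu0, ?_⟩, hFu⟩
      change 0 < Q'.eval u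
      rw [hQ'e]
      have h3 := (hpt u hu0).2
      rw [hFu] at h3
      have h4 : (fun i => (l i).eval u / w.eval u) = fun i => (x : V3) i := by
        funext i
        rw [← h3 i, ← hxc]
      rw [h4]
      exact hx
    · rintro ⟨u, ⟨hu0, hu1⟩, rfl⟩
      have hu1' : 0 < Q'.eval u := hu1
      rw [hQ'e] at hu1'
      obtain ⟨h3, h4⟩ := hpt u hu0
      refine ⟨h3, ?_⟩
      have hn : ‖L (pt (F u) φ)‖ = 1 := by
        rw [L.norm_map]
        exact Pool.Agent.H789R2.FR.norm_pt h3 φ
      refine ⟨⟨L (pt (F u) φ), by rw [mem_sphere_zero_iff_norm]; exact hn⟩, ?_, rfl⟩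
      change s < MvPolynomial.eval (fun i => (L (pt (F u) φ)) i) P
      have h5 : (fun i => (L (pt (F u) φ)) i) = fun i => (l i).eval u / w.eval u := by
        funext i
        exact h4 i
      rw [h5]
      exact hu1'
  rw [hset]
  exact h2

end Pool.Agent.R247.LC.Sp
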